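import Mathlib

/-!
# Uniqueness of cosine and sine coefficients on `[0, 1]`
-/

set_option autoImplicit false
set_option linter.style.haveILetI false

open MeasureTheory Set Filter Topology

namespace Pool.Agent.Helper45.Bern

/-- A continuous function on `[0,1]` all of whose cosine coefficients vanish is zero. -/
theorem eq_zero_of_cos_coeff {f : ℝ → ℝ} (hf : ContinuousOn f (Icc 0 1))
    (h : ∀ n : ℕ, ∫ t in (0:ℝ)..1, f t * Real.cos (Real.pi * n * t) = 0) :
    ∀ t ∈ Icc (0:ℝ) 1, f t = 0 := by
  haveI : Fact ((0:ℝ) < 2) := ⟨by norm_num⟩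
  let g : ℝ → ℂ := fun t => (f |t| : ℂ)
  have hcont : ContinuousOn (fun t : ℝ => f |t|) (Icc (-1) 1) := by
    apply hf.comp continuous_abs.continuousOn
    intro t ht
    exact ⟨abs_nonneg t, abs_le.2 ⟨ht.1, ht.2⟩⟩
  have hgc : ContinuousOn g (Icc (-1) (-1 + 2)) := by
    have e : (-1 : ℝ) + 2 = 1 := by norm_num
    rw [e]
    exact Complex.continuous_ofReal.comp_continuousOn hcont
  have hper : g (-1) = g (-1 + 2) := by
    simp only [g]
    norm_num
  let F : C(AddCircle (2:ℝ), ℂ) := ⟨AddCircle.liftIco 2 (-1) g, AddCircle.liftIco_continuous hper hgc⟩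
  have hcoef : ∀ n : ℤ, fourierCoeff F n = 0 := by
    intro n
    change fourierCoeff (AddCircle.liftIco 2 (-1) g) n = 0
    rw [fourierCoeff_liftIco_eq, fourierCoeffOn_eq_integral]
    have e : (-1 : ℝ) + 2 = 1 := by norm_num
    have hG : ∀ t : ℝ, (fourier (-n) (t : AddCircle (-1 + 2 - (-1) : ℝ)) : ℂ) • g t =
        Complex.exp (-(Real.pi * n * t : ℝ) * Complex.I) * (f |t| : ℂ) := by
      intro t
      rw [fourier_coe_apply, smul_eq_mul]
      congr 2
      push_cast
      ring
    simp_rw [hG]
    rw [e]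
    have hci : ContinuousOn (fun t : ℝ =>
        Complex.exp (-(Real.pi * n * t : ℝ) * Complex.I) * (f |t| : ℂ)) (Icc (-1) 1) := by
      apply ContinuousOn.mul
      · fun_prop
      · exact Complex.continuous_ofReal.comp_continuousOn hcont
    have hi1 : IntervalIntegrable (fun t : ℝ =>
        Complex.exp (-(Real.pi * n * t : ℝ) * Complex.I) * (f |t| : ℂ)) volume (-1) 0 := by
      apply ContinuousOn.intervalIntegrable
      rw [uIcc_of_le (by norm_num)]
      exact hci.mono (Icc_subset_Icc le_rfl (by norm_num))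
    have hi2 : IntervalIntegrable (fun t : ℝ =>
        Complex.exp (-(Real.pi * n * t : ℝ) * Complex.I) * (f |t| : ℂ)) volume 0 1 := by
      apply ContinuousOn.intervalIntegrable
      rw [uIcc_of_le (by norm_num)]
      exact hci.mono (Icc_subset_Icc (by norm_num) le_rfl)
    rw [← intervalIntegral.integral_add_adjacent_intervals hi1 hi2]
    have h1 : ∫ t in (-1:ℝ)..0, Complex.exp (-(Real.pi * n * t : ℝ) * Complex.I) * (f |t| : ℂ) =
        ∫ t in (0:ℝ)..1, Complex.exp ((Real.pi * n * t : ℝ) * Complex.I) * (f |t| : ℂ) := by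
      have := intervalIntegral.integral_comp_neg (a := (0:ℝ)) (b := 1) (fun t : ℝ =>
        Complex.exp (-(Real.pi * n * t : ℝ) * Complex.I) * (f |t| : ℂ))
      rw [neg_zero] at this
      rw [← this]
      apply intervalIntegral.integral_congr
      intro t _
      simp only [abs_neg]
      congr 2
      push_cast
      ring
    have hi3 : IntervalIntegrable (fun t : ℝ =>
        Complex.exp ((Real.pi * n * t : ℝ) * Complex.I) * (f |t| : ℂ)) volume 0 1 := by
      apply ContinuousOn.intervalIntegrable
      rw [uIcc_of_le (by norm_num)]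
      apply ContinuousOn.mul
      · fun_prop
      · exact Complex.continuous_ofReal.comp_continuousOn
          (hcont.mono (Icc_subset_Icc (by norm_num) le_rfl))
    rw [h1, ← intervalIntegral.integral_add hi3 hi2]
    have h2 : ∫ t in (0:ℝ)..1, (Complex.exp ((Real.pi * n * t : ℝ) * Complex.I) * (f |t| : ℂ) +
        Complex.exp (-(Real.pi * n * t : ℝ) * Complex.I) * (f |t| : ℂ)) =
        ∫ t in (0:ℝ)..1, ((2 * (f t * Real.cos (Real.pi * (n.natAbs : ℕ) * t)) : ℝ) : ℂ) := by
      apply intervalIntegral.integral_congr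
      intro t ht
      rw [uIcc_of_le (by norm_num)] at ht
      simp only
      rw [abs_of_nonneg ht.1, ← add_mul]
      have hcos : Real.cos (Real.pi * (n.natAbs : ℕ) * t) = Real.cos (Real.pi * n * t) := by
        rw [Nat.cast_natAbs, Int.cast_abs]
        rcases abs_cases (n : ℝ) with ⟨hn, _⟩ | ⟨hn, _⟩
        · rw [hn]
        · rw [hn, mul_neg, neg_mul, Real.cos_neg]
      rw [hcos]
      have h3 := Complex.two_cos (Real.pi * n * t : ℝ)
      rw [show (-(Real.pi * n * t : ℝ) * Complex.I : ℂ) = -((Real.pi * n * t : ℝ) : ℂ) * Complex.I by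
        push_cast; ring] 
      rw [← h3]
      push_cast
      ring
    rw [h2, intervalIntegral.integral_ofReal, intervalIntegral.integral_const_mul, h, mul_zero]
    simp
  have hsum : Summable (fourierCoeff F) := by
    have : fourierCoeff F = fun _ => 0 := funext hcoef
    rw [this]
    exact summable_zero
  intro t ht
  have h1 := has_pointwise_sum_fourier_series_of_summable hsum ((-t : ℝ) : AddCircle (2:ℝ))
  have h2 : (F ((-t : ℝ) : AddCircle (2:ℝ))) = 0 := by
    rw [← h1.tsum_eq]
    simp [hcoef]
  have h3 : F ((-t : ℝ) : AddCircle (2:ℝ)) = g (-t) := by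
    change AddCircle.liftIco 2 (-1) g ((-t : ℝ) : AddCircle (2:ℝ)) = g (-t)
    rw [AddCircle.liftIco_coe_apply]
    constructor
    · linarith [ht.2]
    · linarith [ht.1]
  rw [h3] at h2
  simp only [g, abs_neg, abs_of_nonneg ht.1] at h2
  exact_mod_cast h2

/-- A continuous function on `[0,1]` all of whose sine coefficients vanish is zero. -/
theorem eq_zero_of_sin_coeff {f : ℝ → ℝ} (hf : ContinuousOn f (Icc 0 1))
    (h : ∀ n : ℕ, ∫ t in (0:ℝ)..1, f t * Real.sin (Real.pi * n * t) = 0) :
    ∀ t ∈ Icc (0:ℝ) 1, f t = 0 := by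
  have hint : ∀ n : ℝ, IntervalIntegrable (fun t => f t * Real.sin (Real.pi * n * t)) volume 0 1 := by
    intro n
    apply ContinuousOn.intervalIntegrable
    rw [uIcc_of_le (by norm_num)]
    exact hf.mul (by fun_prop)
  have h1 : ∀ t ∈ Icc (0:ℝ) 1, f t * Real.sin (Real.pi * t) = 0 := by
    apply eq_zero_of_cos_coeff (f := fun t => f t * Real.sin (Real.pi * t))
    · exact hf.mul (by fun_prop)
    · intro n
      rcases Nat.eq_zero_or_pos n with hn | hn
      · subst hn
        have := h 1
        simpa using this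
      · have e : ∀ t : ℝ, f t * Real.sin (Real.pi * t) * Real.cos (Real.pi * n * t) =
            (1 / 2 : ℝ) * (f t * Real.sin (Real.pi * (n + 1 : ℝ) * t)) -
            (1 / 2 : ℝ) * (f t * Real.sin (Real.pi * (n - 1 : ℝ) * t)) := by
          intro t
          rw [show Real.pi * (n + 1 : ℝ) * t = Real.pi * n * t + Real.pi * t by ring,
            show Real.pi * (n - 1 : ℝ) * t = Real.pi * n * t - Real.pi * t by ring,
            Real.sin_add, Real.sin_sub]
          ring
        simp_rw [e]
        rw [intervalIntegral.integral_sub ((hint _).const_mul _) ((hint _).const_mul _),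
          intervalIntegral.integral_const_mul, intervalIntegral.integral_const_mul]
        have h2 := h (n + 1)
        have h3 := h (n - 1)
        push_cast at h2
        rw [Nat.cast_sub hn, Nat.cast_one] at h3
        rw [h2, h3]
        ring
  -- zero in the interior, hence everywhere
  have h2 : ∀ t ∈ Ioo (0:ℝ) 1, f t = 0 := by
    intro t ht
    have h3 := h1 t ⟨ht.1.le, ht.2.le⟩
    rcases mul_eq_zero.1 h3 with h4 | h4
    · exact h4
    · exfalso
      have : 0 < Real.sin (Real.pi * t) := by
        apply Real.sin_pos_of_pos_of_lt_pi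
        · exact mul_pos Real.pi_pos ht.1
        · nlinarith [Real.pi_pos, ht.2]
      exact this.ne' h4
  intro t ht
  have hcl : t ∈ closure (Ioo (0:ℝ) 1) := by
    rw [closure_Ioo (by norm_num)]; exact ht
  have hsub : Ioo (0:ℝ) 1 ⊆ Icc 0 1 := Ioo_subset_Icc_self
  have htend : Tendsto f (𝓝[Ioo (0:ℝ) 1] t) (𝓝 (f t)) := (hf t ht).mono hsub
  have hne : (𝓝[Ioo (0:ℝ) 1] t).NeBot := mem_closure_iff_nhdsWithin_neBot.1 hcl
  have htend2 : Tendsto f (𝓝[Ioo (0:ℝ) 1] t) (𝓝 0) := by
    apply tendsto_const_nhds.congr'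
    filter_upwards [self_mem_nhdsWithin] with s hs
    exact (h2 s hs).symm
  exact tendsto_nhds_unique htend htend2

end Pool.Agent.Helper45.Bern
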