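import Pool.Agent.Helper5.BernR
import Pool.Agent.Helper45.Bern.Fourier

/-!
# Sine coefficients of the transmuted function
-/

set_option autoImplicit false

open MeasureTheory Set Filter Topology
open Pool.Agent.Helper5.Bern

namespace Pool.Agent.Helper45.Bern

/-- Fubini on the triangle `0 ≤ s ≤ t ≤ 1`. -/
theorem triangle_swap {f : ℝ → ℝ → ℝ} (hf : Continuous (Function.uncurry f)) :
    ∫ t in (0:ℝ)..1, ∫ s in (0:ℝ)..t, f t s = ∫ s in (0:ℝ)..1, ∫ t in s..1, f t s := by
  set F : ℝ → ℝ → ℝ := fun t s => indicator {s | s ≤ t} (f t) s with hF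
  have hint : IntegrableOn F.uncurry (uIoc (0:ℝ) 1 ×ˢ uIoc (0:ℝ) 1) := by
    have h1 : IntegrableOn (Function.uncurry f) (Icc (0:ℝ) 1 ×ˢ Icc (0:ℝ) 1) :=
      hf.continuousOn.integrableOn_compact (isCompact_Icc.prod isCompact_Icc)
    have h2 : IntegrableOn (Function.uncurry f) (uIoc (0:ℝ) 1 ×ˢ uIoc (0:ℝ) 1) := by
      apply h1.mono_set
      rw [uIoc_of_le (by norm_num)]
      exact prod_mono Ioc_subset_Icc_self Ioc_subset_Icc_self
    have h3 : MeasurableSet {p : ℝ × ℝ | p.2 ≤ p.1} := measurableSet_le measurable_snd measurable_fst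
    have h4 : F.uncurry = indicator {p : ℝ × ℝ | p.2 ≤ p.1} (Function.uncurry f) := by
      funext p
      simp only [Function.uncurry, hF, indicator, mem_ofPred_eq]
    rw [h4]
    exact h2.indicator h3
  have h1 : ∫ t in (0:ℝ)..1, ∫ s in (0:ℝ)..t, f t s = ∫ t in (0:ℝ)..1, ∫ s in (0:ℝ)..1, F t s := by
    apply intervalIntegral.integral_congr
    intro t ht
    rw [uIcc_of_le (by norm_num)] at ht
    simp only [hF]
    rw [intervalIntegral.integral_indicator ht]
  have h2 : ∫ s in (0:ℝ)..1, ∫ t in (0:ℝ)..1, F t s = ∫ s in (0:ℝ)..1, ∫ t in s..1, f t s := by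
    apply intervalIntegral.integral_congr
    intro s hs
    rw [uIcc_of_le (by norm_num)] at hs
    simp only
    have hc : Continuous (fun t => f t s) := by
      exact hf.comp (by fun_prop : Continuous fun t : ℝ => (t, s))
    have e1 : ∀ t, F t s = indicator {t | s ≤ t} (fun t => f t s) t := by
      intro t
      simp only [hF, indicator, mem_ofPred_eq]
    simp_rw [e1]
    have hm : MeasurableSet {t : ℝ | s ≤ t} := measurableSet_Ici
    rw [intervalIntegral.integral_of_le (by norm_num), intervalIntegral.integral_of_le hs.2,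
      MeasureTheory.integral_indicator hm, Measure.restrict_restrict hm]
    apply setIntegral_congr_set
    have e2 : (({t : ℝ | s ≤ t} ∩ Ioc (0:ℝ) 1 : Set ℝ)) =ᵐ[volume] (Ioc s 1 : Set ℝ) := by
      rcases eq_or_lt_of_le hs.1 with h0 | h0
      · rw [← h0]
        have : {t : ℝ | 0 ≤ t} ∩ Ioc 0 1 = Ioc 0 1 := by
          ext t; simp only [mem_inter_iff, mem_ofPred_eq, mem_Ioc]
          constructor
          · rintro ⟨_, h⟩; exact h
          · intro h; exact ⟨h.1.le, h⟩
        rw [this]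
      · have : {t : ℝ | s ≤ t} ∩ Ioc 0 1 = Icc s 1 := by
          ext t; simp only [mem_inter_iff, mem_ofPred_eq, mem_Ioc, mem_Icc]
          constructor
          · rintro ⟨h, h'⟩; exact ⟨h, h'.2⟩
          · intro h; exact ⟨h.1, h0.trans_le h.1, h.2⟩
        rw [this]
        exact Ioc_ae_eq_Icc.symm
    exact e2
  rw [h1, ← h2]
  exact intervalIntegral_intervalIntegral_swap hint

/-- the Riemann kernel `J₀(c √(t²-s²))` -/
noncomputable def pk (c t s : ℝ) : ℝ := besP 0 (c ^ 2 * (t ^ 2 - s ^ 2) / 4)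

theorem continuous_pk (c : ℝ) : Continuous (Function.uncurry (pk c)) := by
  unfold pk Function.uncurry
  exact (continuous_besP 0).comp (by fun_prop)

theorem pk_one (c s : ℝ) : pk c 1 s = besR c s := by
  rw [besR_eq, pk]; congr 2; ring

/-- the Sonine-type identity for the kernel -/
def SonineId (c : ℝ) : Prop := ∀ ν t : ℝ, 0 ≤ t → t ≤ 1 →
  ∫ s in (0:ℝ)..t, pk c t s * Real.cos (ν * s) = Real.sin (√(ν ^ 2 + c ^ 2) * t) / √(ν ^ 2 + c ^ 2)

theorem SonineId.one {c : ℝ} (h : SonineId c) (ν : ℝ) :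
    ∫ s in (0:ℝ)..1, besR c s * Real.cos (ν * s) = Real.sin √(ν ^ 2 + c ^ 2) / √(ν ^ 2 + c ^ 2) := by
  have := h ν 1 zero_le_one le_rfl
  rw [mul_one] at this
  rw [← this]
  congr 1
  funext s
  rw [pk_one]

/-- `x_k` -/
noncomputable def xk (c : ℝ) (k : ℕ) : ℝ := √((Real.pi * k) ^ 2 - c ^ 2)

section nodes

variable {c : ℝ} (hc0 : 0 < c) (hc : c < Real.pi) {k : ℕ} (hk : 1 ≤ k)

include hc0 hc hk

theorem c_lt_pik : c < Real.pi * k := by
  have : (1 : ℝ) ≤ k := by exact_mod_cast hk
  nlinarith [Real.pi_pos]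

theorem xk_pos : 0 < xk c k := by
  apply Real.sqrt_pos.2
  have := c_lt_pik hc0 hc hk
  nlinarith

theorem xk_sq : xk c k ^ 2 = (Real.pi * k) ^ 2 - c ^ 2 := by
  apply Real.sq_sqrt
  have := c_lt_pik hc0 hc hk
  nlinarith

theorem sqrt_xk : √(xk c k ^ 2 + c ^ 2) = Real.pi * k := by
  rw [xk_sq hc0 hc hk, sub_add_cancel, Real.sqrt_sq]
  have := c_lt_pik hc0 hc hk
  linarith

end nodes

/-- first trigonometric integral -/
theorem trig1 (x ν t : ℝ) : (x ^ 2 - ν ^ 2) * ∫ s in (0:ℝ)..t, Real.sin (x * (t - s)) * Real.cos (ν * s) =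
    x * (Real.cos (ν * t) - Real.cos (x * t)) := by
  rw [← intervalIntegral.integral_const_mul]
  have hd : ∀ s ∈ uIcc 0 t, HasDerivAt (fun s => x * (Real.cos (x * (t - s)) * Real.cos (ν * s)) -
      ν * (Real.sin (x * (t - s)) * Real.sin (ν * s)))
      ((x ^ 2 - ν ^ 2) * (Real.sin (x * (t - s)) * Real.cos (ν * s))) s := by
    intro s _
    have h1 : HasDerivAt (fun s : ℝ => x * (t - s)) (-x) s := by
      have := ((hasDerivAt_id s).const_sub t).const_mul x
      simpa using this
    have h2 : HasDerivAt (fun s : ℝ => ν * s) ν s := by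
      have := (hasDerivAt_id s).const_mul ν
      simpa using this
    have h3 := ((h1.cos.mul h2.cos).const_mul x).sub ((h1.sin.mul h2.sin).const_mul ν)
    refine h3.congr_deriv ?_
    ring
  rw [intervalIntegral.integral_eq_sub_of_hasDerivAt hd
    (Continuous.intervalIntegrable (by fun_prop) _ _)]
  simp
  ring

/-- second trigonometric integral -/
theorem trig2 (ω z : ℝ) (hω : Real.sin ω = 0) :
    (ω ^ 2 - z ^ 2) * ∫ t in (0:ℝ)..1, Real.sin (ω * t) * Real.sin (z * t) =
      - (ω * Real.cos ω * Real.sin z) := by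
  rw [← intervalIntegral.integral_const_mul]
  have hd : ∀ t ∈ uIcc (0:ℝ) 1, HasDerivAt (fun t => z * (Real.sin (ω * t) * Real.cos (z * t)) -
      ω * (Real.cos (ω * t) * Real.sin (z * t)))
      ((ω ^ 2 - z ^ 2) * (Real.sin (ω * t) * Real.sin (z * t))) t := by
    intro t _
    have h1 : HasDerivAt (fun s : ℝ => ω * s) ω t := by
      have := (hasDerivAt_id t).const_mul ω
      simpa using this
    have h2 : HasDerivAt (fun s : ℝ => z * s) z t := by
      have := (hasDerivAt_id t).const_mul z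
      simpa using this
    have h3 := ((h1.sin.mul h2.cos).const_mul z).sub ((h1.cos.mul h2.sin).const_mul ω)
    refine h3.congr_deriv ?_
    ring
  rw [intervalIntegral.integral_eq_sub_of_hasDerivAt hd
    (Continuous.intervalIntegrable (by fun_prop) _ _)]
  simp [hω]
  ring

theorem sin_pik (k : ℕ) : Real.sin (Real.pi * k) = 0 := by
  rw [mul_comm]; exact Real.sin_nat_mul_pi k

theorem cos_pik (k : ℕ) : Real.cos (Real.pi * k) = (-1) ^ k := by
  rw [mul_comm]; exact Real.cos_nat_mul_pi k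

/-- `A(s) = ∫_s^1 J₀(c√(t²-s²)) sin(ωt) dt` -/
noncomputable def Ak (c ω s : ℝ) : ℝ := ∫ t in s..1, pk c t s * Real.sin (ω * t)

/-- `Y(s) = ∫_s^1 sin(x(t-s)) J₀(c√(1-t²)) dt` -/
noncomputable def Yk (c x s : ℝ) : ℝ := ∫ t in s..1, Real.sin (x * (t - s)) * besR c t

theorem continuous_Ak (c ω : ℝ) : Continuous (Ak c ω) := by
  have : Ak c ω = fun s => - ∫ t in (1:ℝ)..s, pk c t s * Real.sin (ω * t) := by
    funext s; rw [Ak, intervalIntegral.integral_symm]
  rw [this]
  apply Continuous.neg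
  apply intervalIntegral.continuous_parametric_intervalIntegral_of_continuous
  · have h1 : Continuous fun p : ℝ × ℝ => pk c p.2 p.1 :=
      (continuous_pk c).comp (by fun_prop : Continuous fun p : ℝ × ℝ => (p.2, p.1))
    unfold Function.uncurry
    exact h1.mul (by fun_prop)
  · exact continuous_id

theorem continuous_Yk (c x : ℝ) : Continuous (Yk c x) := by
  have : Yk c x = fun s => - ∫ t in (1:ℝ)..s, Real.sin (x * (t - s)) * besR c t := by
    funext s; rw [Yk, intervalIntegral.integral_symm]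
  rw [this]
  apply Continuous.neg
  apply intervalIntegral.continuous_parametric_intervalIntegral_of_continuous
  · unfold Function.uncurry
    exact Continuous.mul (by fun_prop) ((continuous_besR c).comp continuous_snd)
  · exact continuous_id

theorem Ak_cos {c : ℝ} (hS : SonineId c) (ω ν : ℝ) :
    ∫ s in (0:ℝ)..1, Ak c ω s * Real.cos (ν * s) =
      (∫ t in (0:ℝ)..1, Real.sin (ω * t) * Real.sin (√(ν ^ 2 + c ^ 2) * t)) / √(ν ^ 2 + c ^ 2) := by
  have h1 : ∫ s in (0:ℝ)..1, Ak c ω s * Real.cos (ν * s) =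
      ∫ s in (0:ℝ)..1, ∫ t in s..1, pk c t s * Real.sin (ω * t) * Real.cos (ν * s) := by
    congr 1
    funext s
    rw [Ak, ← intervalIntegral.integral_mul_const]
  rw [h1, ← triangle_swap (f := fun t s => pk c t s * Real.sin (ω * t) * Real.cos (ν * s))]
  · rw [← intervalIntegral.integral_div]
    apply intervalIntegral.integral_congr
    intro t ht
    rw [uIcc_of_le (by norm_num)] at ht
    simp only
    rw [mul_div_assoc, ← hS ν t ht.1 ht.2, ← intervalIntegral.integral_const_mul]
    congr 1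
    funext s; ring
  · unfold Function.uncurry
    have h1 : Continuous fun p : ℝ × ℝ => pk c p.1 p.2 := continuous_pk c
    exact (h1.mul (by fun_prop)).mul (by fun_prop)

theorem Yk_cos {c : ℝ} (hS : SonineId c) (x ν : ℝ) :
    (x ^ 2 - ν ^ 2) * ∫ s in (0:ℝ)..1, Yk c x s * Real.cos (ν * s) =
      x * (Real.sin √(ν ^ 2 + c ^ 2) / √(ν ^ 2 + c ^ 2) -
        Real.sin √(x ^ 2 + c ^ 2) / √(x ^ 2 + c ^ 2)) := by
  have h1 : ∫ s in (0:ℝ)..1, Yk c x s * Real.cos (ν * s) =
      ∫ s in (0:ℝ)..1, ∫ t in s..1, Real.sin (x * (t - s)) * besR c t * Real.cos (ν * s) := by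
    congr 1
    funext s
    rw [Yk, ← intervalIntegral.integral_mul_const]
  rw [h1, ← triangle_swap (f := fun t s => Real.sin (x * (t - s)) * besR c t * Real.cos (ν * s))]
  · rw [← intervalIntegral.integral_const_mul, ← hS.one ν, ← hS.one x,
      ← intervalIntegral.integral_sub, ← intervalIntegral.integral_const_mul]
    · apply intervalIntegral.integral_congr
      intro t _
      simp only
      have h2 := trig1 x ν t
      have h3 : ∫ s in (0:ℝ)..t, Real.sin (x * (t - s)) * besR c t * Real.cos (ν * s) =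
          besR c t * ∫ s in (0:ℝ)..t, Real.sin (x * (t - s)) * Real.cos (ν * s) := by
        rw [← intervalIntegral.integral_const_mul]
        congr 1
        funext s; ring
      rw [h3]
      linear_combination besR c t * h2
    · exact Continuous.intervalIntegrable ((continuous_besR c).mul (by fun_prop)) _ _
    · exact Continuous.intervalIntegrable ((continuous_besR c).mul (by fun_prop)) _ _
  · unfold Function.uncurry
    exact (Continuous.mul (by fun_prop) ((continuous_besR c).comp continuous_fst)).mul (by fun_prop)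

/-- The key identity `A(s) = (-1)^{k+1} (ω/x) Y(s)` on `[0,1]`. -/
theorem Ak_eq {c : ℝ} (hS : SonineId c) (hc0 : 0 < c) (hc : c < Real.pi) {k : ℕ} (hk : 1 ≤ k) :
    ∀ s ∈ Icc (0:ℝ) 1, Ak c (Real.pi * k) s =
      (-1) ^ (k + 1) * (Real.pi * k / xk c k) * Yk c (xk c k) s := by
  set x := xk c k with hx
  set ω := Real.pi * k with hω
  have hx0 : 0 < x := xk_pos hc0 hc hk
  have hxsq : x ^ 2 = ω ^ 2 - c ^ 2 := xk_sq hc0 hc hk
  set D : ℝ → ℝ := fun s => Ak c ω s - (-1) ^ (k + 1) * (ω / x) * Yk c x s with hD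
  have hDc : Continuous D := (continuous_Ak c ω).sub ((continuous_Yk c x).const_mul _)
  have hne : ∀ ν : ℝ, x ^ 2 - ν ^ 2 ≠ 0 → ∫ s in (0:ℝ)..1, D s * Real.cos (ν * s) = 0 := by
    intro ν hν
    have hz0 : 0 < √(ν ^ 2 + c ^ 2) := Real.sqrt_pos.2 (by positivity)
    have hzsq : √(ν ^ 2 + c ^ 2) ^ 2 = ν ^ 2 + c ^ 2 := Real.sq_sqrt (by positivity)
    have h1 : ∫ s in (0:ℝ)..1, D s * Real.cos (ν * s) =
        (∫ s in (0:ℝ)..1, Ak c ω s * Real.cos (ν * s)) -
        (-1) ^ (k + 1) * (ω / x) * ∫ s in (0:ℝ)..1, Yk c x s * Real.cos (ν * s) := by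
      rw [← intervalIntegral.integral_const_mul, ← intervalIntegral.integral_sub]
      · congr 1
        funext s
        simp only [hD]
        ring
      · exact Continuous.intervalIntegrable ((continuous_Ak c ω).mul (by fun_prop)) _ _
      · exact Continuous.intervalIntegrable
          (((continuous_Yk c x).mul (by fun_prop)).const_mul _) _ _
    have h2 := Ak_cos hS ω ν
    have h3 := Yk_cos hS x ν
    have h4 := trig2 ω √(ν ^ 2 + c ^ 2) (sin_pik k)
    rw [hzsq, cos_pik] at h4
    rw [show √(x ^ 2 + c ^ 2) = ω from sqrt_xk hc0 hc hk, sin_pik, zero_div, sub_zero] at h3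
    have h5 : (x ^ 2 - ν ^ 2) * ∫ s in (0:ℝ)..1, D s * Real.cos (ν * s) = 0 := by
      rw [h1, mul_sub, h2]
      have h6 : (x ^ 2 - ν ^ 2) * ((∫ t in (0:ℝ)..1, Real.sin (ω * t) *
          Real.sin (√(ν ^ 2 + c ^ 2) * t)) / √(ν ^ 2 + c ^ 2)) =
          - (ω * (-1) ^ k * Real.sin √(ν ^ 2 + c ^ 2)) / √(ν ^ 2 + c ^ 2) := by
        rw [← h4, hxsq]; ring
      rw [h6]
      have h7 : (x ^ 2 - ν ^ 2) * ((-1) ^ (k + 1) * (ω / x) *
          ∫ s in (0:ℝ)..1, Yk c x s * Real.cos (ν * s)) =
          (-1) ^ (k + 1) * (ω / x) * (x * (Real.sin √(ν ^ 2 + c ^ 2) / √(ν ^ 2 + c ^ 2))) := by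
        rw [← h3]; ring
      rw [h7, pow_succ]
      field_simp
      ring
    rcases mul_eq_zero.1 h5 with h6 | h6
    · exact absurd h6 hν
    · exact h6
  have hcont : Continuous fun ν : ℝ => ∫ s in (0:ℝ)..1, D s * Real.cos (ν * s) := by
    apply intervalIntegral.continuous_parametric_intervalIntegral_of_continuous'
    unfold Function.uncurry
    exact (hDc.comp continuous_snd).mul (by fun_prop)
  have hall : ∀ ν : ℝ, ∫ s in (0:ℝ)..1, D s * Real.cos (ν * s) = 0 := by
    have hdense : Dense (({x} : Set ℝ)ᶜ ∩ ({-x} : Set ℝ)ᶜ) :=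
      (dense_compl_singleton x).inter_of_isOpen_left (dense_compl_singleton (-x))
        isOpen_compl_singleton
    have h1 : (fun ν : ℝ => ∫ s in (0:ℝ)..1, D s * Real.cos (ν * s)) = fun _ => 0 := by
      apply Continuous.ext_on hdense hcont continuous_const
      intro ν hν
      apply hne ν
      intro h
      have h2 : (x - ν) * (x + ν) = 0 := by linarith [h, show (x - ν) * (x + ν) = x ^ 2 - ν ^ 2 by ring]
      rcases mul_eq_zero.1 h2 with h3 | h3
      · exact hν.1 (by rw [mem_singleton_iff]; linarith)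
      · exact hν.2 (by rw [mem_singleton_iff]; linarith)
    intro ν
    exact congrFun h1 ν
  intro s hs
  have := eq_zero_of_cos_coeff hDc.continuousOn (fun n => by
    have := hall (Real.pi * n)
    exact this) s hs
  simp only [hD] at this
  linarith

end Pool.Agent.Helper45.Bern
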