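import Pool.Agent.Helper45.Bern.Coef

/-!
# Sine coefficients of the transmuted function, continued
-/

set_option autoImplicit false

open MeasureTheory Set Filter Topology
open Pool.Agent.Helper5.Bern

namespace Pool.Agent.Helper45.Bern

/-- the transmuted function `H(t) = ∫_0^t J₀(c√(t²-s²)) (1-s)^α ds` -/
noncomputable def Hf (α c t : ℝ) : ℝ := ∫ s in (0:ℝ)..t, pk c t s * (1 - s) ^ α

/-- `Q_k(t) = ∫_0^t J₀(c √(1-(1-(t-u))²)) cos(x_k u) du` -/
noncomputable def Qf (c : ℝ) (k : ℕ) (t : ℝ) : ℝ :=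
  ∫ u in (0:ℝ)..t, besR c (1 - (t - u)) * Real.cos (xk c k * u)

/-- `E_k = ∫_0^1 t^(α-1) Q_k(t) dt` -/
noncomputable def Ef (α c : ℝ) (k : ℕ) : ℝ := ∫ t in (0:ℝ)..1, t ^ (α - 1) * Qf c k t

/-- `Ψ_α(c) = ∫_0^1 (1-s)^α J₀(c√(1-s²)) ds` -/
noncomputable def Psi (α c : ℝ) : ℝ := ∫ s in (0:ℝ)..1, (1 - s) ^ α * besR c s

theorem continuous_one_sub_rpow {α : ℝ} (hα : 0 < α) : Continuous fun s : ℝ => (1 - s) ^ α :=
  (Real.continuous_rpow_const hα.le).comp (by fun_prop)

theorem continuous_Hf {α : ℝ} (hα : 0 < α) (c : ℝ) : Continuous (Hf α c) := by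
  unfold Hf
  apply intervalIntegral.continuous_parametric_intervalIntegral_of_continuous
  · unfold Function.uncurry
    exact (continuous_pk c).mul ((continuous_one_sub_rpow hα).comp continuous_snd)
  · exact continuous_id

theorem Hf_zero (α c : ℝ) : Hf α c 0 = 0 := by simp [Hf]

theorem Hf_one (α c : ℝ) : Hf α c 1 = Psi α c := by
  unfold Hf Psi
  congr 1
  funext s
  rw [pk_one, mul_comm]

section

variable (c x : ℝ)

/-- auxiliary primitives -/
noncomputable def C1 (p : ℝ) : ℝ := ∫ q in (0:ℝ)..p, Real.cos (x * q) * besR c (1 - q)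

/-- auxiliary primitives -/
noncomputable def S1 (p : ℝ) : ℝ := ∫ q in (0:ℝ)..p, Real.sin (x * q) * besR c (1 - q)

theorem cont_j : Continuous fun q : ℝ => besR c (1 - q) := (continuous_besR c).comp (by fun_prop)

theorem hasDerivAt_C1 (p : ℝ) : HasDerivAt (C1 c x) (Real.cos (x * p) * besR c (1 - p)) p := by
  have hc : Continuous fun q : ℝ => Real.cos (x * q) * besR c (1 - q) :=
    Continuous.mul (by fun_prop) (cont_j c)
  exact intervalIntegral.integral_hasDerivAt_right (hc.intervalIntegrable _ _)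
      hc.aestronglyMeasurable.stronglyMeasurableAtFilter hc.continuousAt

theorem hasDerivAt_S1 (p : ℝ) : HasDerivAt (S1 c x) (Real.sin (x * p) * besR c (1 - p)) p := by
  have hc : Continuous fun q : ℝ => Real.sin (x * q) * besR c (1 - q) :=
    Continuous.mul (by fun_prop) (cont_j c)
  exact intervalIntegral.integral_hasDerivAt_right (hc.intervalIntegrable _ _)
      hc.aestronglyMeasurable.stronglyMeasurableAtFilter hc.continuousAt

theorem Yk_one_sub (p : ℝ) : Yk c x (1 - p) =
    Real.sin (x * p) * C1 c x p - Real.cos (x * p) * S1 c x p := by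
  have h1 : Yk c x (1 - p) = ∫ q in (0:ℝ)..p, Real.sin (x * (p - q)) * besR c (1 - q) := by
    have := intervalIntegral.integral_comp_sub_left (a := (0:ℝ)) (b := p)
      (fun t => Real.sin (x * (t - (1 - p))) * besR c t) 1
    rw [sub_zero] at this
    rw [Yk, ← this]
    congr 1
    funext q
    congr 3
    ring
  rw [h1, C1, S1, ← intervalIntegral.integral_const_mul, ← intervalIntegral.integral_const_mul,
    ← intervalIntegral.integral_sub]
  · congr 1
    funext q
    rw [mul_sub, Real.sin_sub]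
    ring
  · exact Continuous.intervalIntegrable
      ((Continuous.mul (by fun_prop) (cont_j c)).const_mul _) _ _
  · exact Continuous.intervalIntegrable
      ((Continuous.mul (by fun_prop) (cont_j c)).const_mul _) _ _

end

theorem Qf_eq (c : ℝ) (k : ℕ) (p : ℝ) : Qf c k p =
    Real.cos (xk c k * p) * C1 c (xk c k) p + Real.sin (xk c k * p) * S1 c (xk c k) p := by
  set x := xk c k with hx
  have h1 : Qf c k p = ∫ q in (0:ℝ)..p, Real.cos (x * (p - q)) * besR c (1 - q) := by
    have := intervalIntegral.integral_comp_sub_left (a := (0:ℝ)) (b := p)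
      (fun u => besR c (1 - (p - u)) * Real.cos (x * u)) p
    rw [sub_zero, sub_self] at this
    rw [Qf, ← hx, ← this]
    congr 1
    funext q
    rw [sub_sub_cancel, mul_comm]
  rw [h1, C1, S1, ← intervalIntegral.integral_const_mul, ← intervalIntegral.integral_const_mul,
    ← intervalIntegral.integral_add]
  · congr 1
    funext q
    rw [mul_sub, Real.cos_sub]
    ring
  · exact Continuous.intervalIntegrable
      ((Continuous.mul (by fun_prop) (cont_j c)).const_mul _) _ _
  · exact Continuous.intervalIntegrable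
      ((Continuous.mul (by fun_prop) (cont_j c)).const_mul _) _ _

theorem hasDerivAt_Qf (c : ℝ) (k : ℕ) (p : ℝ) : HasDerivAt (Qf c k)
    (besR c (1 - p) - xk c k * Yk c (xk c k) (1 - p)) p := by
  set x := xk c k with hx
  have h0 : Qf c k = fun p => Real.cos (x * p) * C1 c x p + Real.sin (x * p) * S1 c x p := by
    funext p; exact Qf_eq c k p
  rw [h0, Yk_one_sub]
  have hl : HasDerivAt (fun p : ℝ => x * p) x p := by
    have := (hasDerivAt_id p).const_mul x
    simpa using this
  have h1 := (hl.cos.mul (hasDerivAt_C1 c x p)).add (hl.sin.mul (hasDerivAt_S1 c x p))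
  refine h1.congr_deriv ?_
  have h2 := Real.sin_sq_add_cos_sq (x * p)
  linear_combination besR c (1 - p) * h2

theorem Qf_zero (c : ℝ) (k : ℕ) : Qf c k 0 = 0 := by simp [Qf]

theorem Qf_one {c : ℝ} (hS : SonineId c) (hc0 : 0 < c) (hc : c < Real.pi) {k : ℕ} (hk : 1 ≤ k) :
    Qf c k 1 = 0 := by
  have h1 : Qf c k 1 = ∫ u in (0:ℝ)..1, besR c u * Real.cos (xk c k * u) := by
    unfold Qf
    congr 1
    funext u
    congr 2
    ring
  rw [h1, hS.one, sqrt_xk hc0 hc hk, sin_pik, zero_div]

/-- `x ∫ p^α Y(1-p) dp = α E_k` when `Ψ_α(c) = 0`. -/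
theorem integral_Yk {α c : ℝ} (hα : 0 < α) (hS : SonineId c) (hc0 : 0 < c) (hc : c < Real.pi)
    {k : ℕ} (hk : 1 ≤ k) (hΨ : Psi α c = 0) :
    xk c k * ∫ s in (0:ℝ)..1, (1 - s) ^ α * Yk c (xk c k) s = α * Ef α c k := by
  set x := xk c k with hx
  have hsub1 : ∫ s in (0:ℝ)..1, (1 - s) ^ α * Yk c x s = ∫ p in (0:ℝ)..1, p ^ α * Yk c x (1 - p) := by
    have := intervalIntegral.integral_comp_sub_left (a := (0:ℝ)) (b := 1)
      (fun p => p ^ α * Yk c x (1 - p)) 1
    rw [sub_zero, sub_self] at this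
    rw [← this]
    congr 1
    funext s
    rw [sub_sub_cancel]
  have hsub2 : ∫ p in (0:ℝ)..1, p ^ α * besR c (1 - p) = 0 := by
    have := intervalIntegral.integral_comp_sub_left (a := (0:ℝ)) (b := 1)
      (fun p => p ^ α * besR c (1 - p)) 1
    rw [sub_zero, sub_self] at this
    rw [← this, ← hΨ, Psi]
    congr 1
    funext s
    rw [sub_sub_cancel]
  have hYc : Continuous fun p => Yk c x (1 - p) := (continuous_Yk c x).comp (by fun_prop)
  have hrc : Continuous fun p : ℝ => p ^ α := Real.continuous_rpow_const hα.le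
  have hQc : Continuous (Qf c k) := continuous_iff_continuousAt.2 fun p =>
    (hasDerivAt_Qf c k p).continuousAt
  have hparts := intervalIntegral.integral_mul_deriv_eq_deriv_mul_of_hasDerivAt (a := 0) (b := 1)
    (u := fun p : ℝ => p ^ α) (v := Qf c k) (u' := fun p => α * p ^ (α - 1))
    (v' := fun p => besR c (1 - p) - x * Yk c x (1 - p)) hrc.continuousOn hQc.continuousOn
    (fun p hp => by
      rw [min_eq_left (by norm_num : (0:ℝ) ≤ 1)] at hp
      exact Real.hasDerivAt_rpow_const (Or.inl hp.1.ne'))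
    (fun p _ => hasDerivAt_Qf c k p)
    ((intervalIntegral.intervalIntegrable_rpow' (by linarith)).const_mul α)
    (Continuous.intervalIntegrable ((cont_j c).sub (hYc.const_mul x)) _ _)
  rw [Qf_zero, Qf_one hS hc0 hc hk, mul_zero, mul_zero, sub_zero, zero_sub] at hparts
  have h1 : ∫ p in (0:ℝ)..1, p ^ α * (besR c (1 - p) - x * Yk c x (1 - p)) =
      (∫ p in (0:ℝ)..1, p ^ α * besR c (1 - p)) -
        x * ∫ p in (0:ℝ)..1, p ^ α * Yk c x (1 - p) := by
    rw [← intervalIntegral.integral_const_mul, ← intervalIntegral.integral_sub]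
    · congr 1
      funext p; ring
    · exact Continuous.intervalIntegrable (hrc.mul (cont_j c)) _ _
    · exact Continuous.intervalIntegrable ((hrc.mul hYc).const_mul x) _ _
  have h2 : ∫ p in (0:ℝ)..1, α * p ^ (α - 1) * Qf c k p = α * Ef α c k := by
    rw [Ef, ← intervalIntegral.integral_const_mul]
    congr 1
    funext p; ring
  rw [h1, h2, hsub2] at hparts
  rw [hsub1]
  linarith

/-- **The sine coefficients of `H`.** -/
theorem sine_coef {α c : ℝ} (hα : 0 < α) (hS : SonineId c) (hc0 : 0 < c) (hc : c < Real.pi)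
    {k : ℕ} (hk : 1 ≤ k) (hΨ : Psi α c = 0) :
    ∫ t in (0:ℝ)..1, Hf α c t * Real.sin (Real.pi * k * t) =
      (-1) ^ (k + 1) * (Real.pi * k / xk c k ^ 2) * (α * Ef α c k) := by
  set ω := Real.pi * k with hω
  have hx0 := xk_pos hc0 hc hk
  have h1 : ∫ t in (0:ℝ)..1, Hf α c t * Real.sin (ω * t) =
      ∫ t in (0:ℝ)..1, ∫ s in (0:ℝ)..t, pk c t s * (1 - s) ^ α * Real.sin (ω * t) := by
    congr 1
    funext t
    rw [Hf, ← intervalIntegral.integral_mul_const]
  rw [h1, triangle_swap (f := fun t s => pk c t s * (1 - s) ^ α * Real.sin (ω * t))]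
  · have h2 : ∫ s in (0:ℝ)..1, ∫ t in s..1, pk c t s * (1 - s) ^ α * Real.sin (ω * t) =
        ∫ s in (0:ℝ)..1, (-1) ^ (k + 1) * (ω / xk c k) * ((1 - s) ^ α * Yk c (xk c k) s) := by
      apply intervalIntegral.integral_congr
      intro s hs
      rw [uIcc_of_le (by norm_num)] at hs
      simp only
      have h3 : ∫ t in s..1, pk c t s * (1 - s) ^ α * Real.sin (ω * t) =
          (1 - s) ^ α * Ak c ω s := by
        rw [Ak, ← intervalIntegral.integral_const_mul]
        congr 1
        funext t; ring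
      rw [h3, Ak_eq hS hc0 hc hk s hs]
      ring
    rw [h2, intervalIntegral.integral_const_mul, ← integral_Yk hα hS hc0 hc hk hΨ]
    field_simp
  · unfold Function.uncurry
    exact ((continuous_pk c).mul ((continuous_one_sub_rpow hα).comp continuous_snd)).mul
      (by fun_prop)

end Pool.Agent.Helper45.Bern
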