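import Mathlib

/-!
# Summability of sine coefficients from a sign condition (Abel summation)
-/

set_option autoImplicit false

open MeasureTheory Set Filter Topology

namespace Pool.Agent.Helper45.Bern

theorem hasSum_integral_const {F : ℕ → ℝ → ℝ} {f : ℝ → ℝ} {b : ℕ → ℝ} {t0 t1 : ℝ}
    (hF : ∀ n, Continuous (F n)) (hb : Summable b)
    (hbd : ∀ n, ∀ t ∈ uIcc t0 t1, |F n t| ≤ b n)
    (hs : ∀ t ∈ uIcc t0 t1, HasSum (fun n => F n t) (f t)) :
    HasSum (fun n => ∫ t in t0..t1, F n t) (∫ t in t0..t1, f t) := by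
  apply intervalIntegral.hasSum_integral_of_dominated_convergence (fun n _ => b n)
  · intro n
    exact (hF n).aestronglyMeasurable
  · intro n
    refine Eventually.of_forall fun t ht => ?_
    exact hbd n t (uIoc_subset_uIcc ht)
  · exact Eventually.of_forall fun t _ => hb
  · exact intervalIntegrable_const
  · exact Eventually.of_forall fun t ht => hs t (uIoc_subset_uIcc ht)

/-- the Poisson-type kernel `∑ k r^k sin(kθ)` is nonnegative on `[0,π]` -/
theorem kernel_hasSum {r : ℝ} (hr0 : 0 ≤ r) (hr1 : r < 1) (θ : ℝ) :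
    ∃ w : ℝ, HasSum (fun k : ℕ => (k : ℝ) * r ^ k * Real.sin (k * θ)) w ∧
      (0 ≤ Real.sin θ → 0 ≤ w) := by
  set z : ℂ := r * Complex.exp (θ * Complex.I) with hz
  have hznorm : ‖z‖ = r := by
    rw [hz, norm_mul, Complex.norm_exp_ofReal_mul_I, mul_one, Complex.norm_real,
      Real.norm_of_nonneg hr0]
  have h1 : HasSum (fun n : ℕ => (n : ℂ) * z ^ n) (z / (1 - z) ^ 2) :=
    hasSum_coe_mul_geometric_of_norm_lt_one (by rw [hznorm]; exact hr1)
  have h2 := Complex.hasSum_im h1
  refine ⟨(z / (1 - z) ^ 2).im, ?_, ?_⟩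
  · convert h2 using 1
    funext k
    have h3 : z ^ k = ((r ^ k : ℝ) : ℂ) * Complex.exp ((k * θ : ℝ) * Complex.I) := by
      rw [hz, mul_pow, ← Complex.exp_nat_mul]
      push_cast
      congr 2
      ring
    rw [h3, Complex.exp_mul_I, ← Complex.ofReal_cos, ← Complex.ofReal_sin]
    rw [show (k : ℂ) = ((k : ℝ) : ℂ) by push_cast; rfl]
    simp only [Complex.mul_im, Complex.ofReal_re, Complex.ofReal_im, Complex.add_im, Complex.I_re,
      Complex.I_im, Complex.mul_re, zero_mul, mul_zero, mul_one, add_zero, zero_add, sub_zero]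
    ring
  · intro hs
    have h4 : z / (1 - z) ^ 2 = z * ((starRingEnd ℂ) (1 - z)) ^ 2 *
        (((Complex.normSq (1 - z) ^ 2)⁻¹ : ℝ) : ℂ) := by
      have hne : (1 - z) ≠ 0 := by
        intro h
        have : z = 1 := by linear_combination -h
        rw [this, norm_one] at hznorm
        linarith
      have hne2 : (starRingEnd ℂ) (1 - z) ≠ 0 := (map_ne_zero (starRingEnd ℂ)).2 hne
      push_cast
      rw [← Complex.mul_conj]
      field_simp
    rw [h4, Complex.im_mul_ofReal]
    apply mul_nonneg _ (by positivity)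
    have hre : z.re = r * Real.cos θ := by
      rw [hz, Complex.re_ofReal_mul, Complex.exp_ofReal_mul_I_re]
    have him : z.im = r * Real.sin θ := by
      rw [hz, Complex.im_ofReal_mul, Complex.exp_ofReal_mul_I_im]
    have h5 : (z * ((starRingEnd ℂ) (1 - z)) ^ 2).im = z.im * (1 - z.re ^ 2 - z.im ^ 2) := by
      rw [sq]
      simp only [Complex.mul_im, Complex.mul_re, Complex.conj_re, Complex.conj_im, Complex.sub_re,
        Complex.sub_im, Complex.one_re, Complex.one_im]
      ring
    rw [h5, hre, him]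
    have h6 : 1 - (r * Real.cos θ) ^ 2 - (r * Real.sin θ) ^ 2 = 1 - r ^ 2 := by
      have := Real.sin_sq_add_cos_sq θ
      linear_combination (-r ^ 2) * this
    rw [h6]
    apply mul_nonneg (mul_nonneg hr0 hs)
    nlinarith

theorem integral_id_mul_sin (k : ℕ) (hk : 1 ≤ k) :
    ∫ s in (0:ℝ)..1, s * Real.sin (Real.pi * k * s) = (-1) ^ (k + 1) / (Real.pi * k) := by
  have hk0 : (Real.pi * k : ℝ) ≠ 0 := by
    have : (0 : ℝ) < k := by exact_mod_cast hk
    positivity
  have hd : ∀ s ∈ uIcc (0:ℝ) 1, HasDerivAt (fun s => -(s * Real.cos (Real.pi * k * s)) / (Real.pi * k) +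
      Real.sin (Real.pi * k * s) / (Real.pi * k) ^ 2) (s * Real.sin (Real.pi * k * s)) s := by
    intro s _
    have h1 : HasDerivAt (fun s : ℝ => Real.pi * k * s) (Real.pi * k) s := by
      have := (hasDerivAt_id s).const_mul (Real.pi * k)
      simpa using this
    have h2 := ((((hasDerivAt_id s).mul h1.cos).neg).div_const (Real.pi * k)).add
      (h1.sin.div_const ((Real.pi * k) ^ 2))
    refine h2.congr_deriv ?_
    simp only [id]
    field_simp
    ring
  rw [intervalIntegral.integral_eq_sub_of_hasDerivAt hd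
    (Continuous.intervalIntegrable (by fun_prop) _ _)]
  have h3 : Real.sin (Real.pi * k) = 0 := by rw [mul_comm]; exact Real.sin_nat_mul_pi k
  have h4 : Real.cos (Real.pi * k) = (-1) ^ k := by rw [mul_comm]; exact Real.cos_nat_mul_pi k
  simp only [mul_one, one_mul, h3, h4, zero_div, mul_zero, Real.sin_zero, zero_mul, neg_zero,
    add_zero, sub_zero, pow_succ]
  ring

/-- Sine coefficients with the right signs are summable. -/
theorem summable_of_sign {H : ℝ → ℝ} (hH : Continuous H) {C : ℝ} (hC : 0 ≤ C)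
    (hb : ∀ t ∈ Icc (0:ℝ) 1, |H t| ≤ C * (1 - t))
    (hsign : ∀ k : ℕ, 0 ≤ (-1) ^ (k + 1) * ∫ t in (0:ℝ)..1, H t * Real.sin (Real.pi * k * t)) :
    Summable (fun k : ℕ => |(k : ℝ) * ∫ t in (0:ℝ)..1, H t * Real.sin (Real.pi * k * t)|) := by
  set h : ℕ → ℝ := fun k => ∫ t in (0:ℝ)..1, H t * Real.sin (Real.pi * k * t) with hh
  have habs : ∀ k : ℕ, |(k : ℝ) * h k| = k * ((-1) ^ (k + 1) * h k) := by
    intro k
    rw [abs_mul, Nat.abs_cast]
    congr 1
    rw [← abs_of_nonneg (hsign k), abs_mul, abs_pow, abs_neg, abs_one, one_pow, one_mul]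
  change Summable (fun k : ℕ => |(k : ℝ) * h k|)
  simp_rw [habs]
  obtain ⟨M, hM⟩ := isCompact_Icc.exists_bound_of_continuousOn (s := Icc (0:ℝ) 1) hH.continuousOn
  have hM0 : 0 ≤ M := (norm_nonneg _).trans (hM 0 (by simp))
  have hflip : ∀ k : ℕ, ∫ s in (0:ℝ)..1, H (1 - s) * Real.sin (Real.pi * k * s) =
      (-1) ^ (k + 1) * h k := by
    intro k
    have h1 := intervalIntegral.integral_comp_sub_left (a := (0:ℝ)) (b := 1)
      (fun t => H t * Real.sin (Real.pi * k * (1 - t))) 1
    rw [sub_zero, sub_self] at h1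
    have h2 : ∫ s in (0:ℝ)..1, H (1 - s) * Real.sin (Real.pi * k * s) =
        ∫ x in (0:ℝ)..1, H (1 - x) * Real.sin (Real.pi * k * (1 - (1 - x))) := by
      congr 1
      funext s
      rw [sub_sub_cancel]
    rw [h2, h1, hh, ← intervalIntegral.integral_const_mul]
    congr 1
    funext t
    have h3 : Real.sin (Real.pi * k) = 0 := by rw [mul_comm]; exact Real.sin_nat_mul_pi k
    have h4 : Real.cos (Real.pi * k) = (-1) ^ k := by rw [mul_comm]; exact Real.cos_nat_mul_pi k
    rw [show Real.pi * k * (1 - t) = Real.pi * k - Real.pi * k * t by ring, Real.sin_sub, h3, h4,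
      pow_succ]
    ring
  -- the Abel sums are bounded
  have habel : ∀ r : ℝ, 0 ≤ r → r < 1 → ∀ N : ℕ,
      ∑ k ∈ Finset.range N, r ^ k * (k * ((-1) ^ (k + 1) * h k)) ≤ C := by
    intro r hr0 hr1 N
    have hsumr : Summable (fun k : ℕ => (k : ℝ) * r ^ k) :=
      (hasSum_coe_mul_geometric_of_norm_lt_one (𝕜 := ℝ) (by
        rw [Real.norm_of_nonneg hr0]; exact hr1)).summable
    choose w hw hwpos using fun θ => kernel_hasSum hr0 hr1 θ
    have hA : HasSum (fun k : ℕ => ∫ s in (0:ℝ)..1,
        (k : ℝ) * r ^ k * Real.sin (k * (Real.pi * s)) * H (1 - s))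
        (∫ s in (0:ℝ)..1, w (Real.pi * s) * H (1 - s)) := by
      apply hasSum_integral_const (b := fun k : ℕ => (k : ℝ) * r ^ k * M)
      · intro k; fun_prop
      · exact hsumr.mul_right M
      · intro k s hs
        rw [uIcc_of_le (by norm_num)] at hs
        rw [abs_mul, abs_mul, abs_mul, Nat.abs_cast, abs_pow, abs_of_nonneg hr0]
        have h1 : |Real.sin (k * (Real.pi * s))| ≤ 1 := Real.abs_sin_le_one _
        have h2 : |H (1 - s)| ≤ M := hM (1 - s) ⟨by linarith [hs.2], by linarith [hs.1]⟩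
        have h3 : 0 ≤ (k : ℝ) * r ^ k := by positivity
        calc (k : ℝ) * r ^ k * |Real.sin (k * (Real.pi * s))| * |H (1 - s)|
            ≤ (k : ℝ) * r ^ k * 1 * M := by gcongr
          _ = (k : ℝ) * r ^ k * M := by ring
      · intro s _
        exact (hw (Real.pi * s)).mul_right _
    have hB : HasSum (fun k : ℕ => ∫ s in (0:ℝ)..1,
        (k : ℝ) * r ^ k * Real.sin (k * (Real.pi * s)) * (C * s))
        (∫ s in (0:ℝ)..1, w (Real.pi * s) * (C * s)) := by
      apply hasSum_integral_const (b := fun k : ℕ => (k : ℝ) * r ^ k * C)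
      · intro k; fun_prop
      · exact hsumr.mul_right C
      · intro k s hs
        rw [uIcc_of_le (by norm_num)] at hs
        rw [abs_mul, abs_mul, abs_mul, Nat.abs_cast, abs_pow, abs_of_nonneg hr0]
        have h1 : |Real.sin (k * (Real.pi * s))| ≤ 1 := Real.abs_sin_le_one _
        have h2 : |C * s| ≤ C := by
          rw [abs_of_nonneg (mul_nonneg hC hs.1)]
          nlinarith [hs.1, hs.2]
        have h3 : 0 ≤ (k : ℝ) * r ^ k := by positivity
        calc (k : ℝ) * r ^ k * |Real.sin (k * (Real.pi * s))| * |C * s|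
            ≤ (k : ℝ) * r ^ k * 1 * C := by gcongr
          _ = (k : ℝ) * r ^ k * C := by ring
      · intro s _
        exact (hw (Real.pi * s)).mul_right _
    have hAk : ∀ k : ℕ, ∫ s in (0:ℝ)..1,
        (k : ℝ) * r ^ k * Real.sin (k * (Real.pi * s)) * H (1 - s) =
        r ^ k * (k * ((-1) ^ (k + 1) * h k)) := by
      intro k
      rw [← hflip, ← intervalIntegral.integral_const_mul, ← intervalIntegral.integral_const_mul]
      congr 1
      funext s
      rw [show (k : ℝ) * (Real.pi * s) = Real.pi * k * s by ring]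
      ring
    have hBk : ∀ k : ℕ, ∫ s in (0:ℝ)..1,
        (k : ℝ) * r ^ k * Real.sin (k * (Real.pi * s)) * (C * s) =
        if k = 0 then 0 else C / Real.pi * (-(-r) ^ k) := by
      intro k
      rcases Nat.eq_zero_or_pos k with hk | hk
      · subst hk; simp
      · rw [if_neg hk.ne']
        have h1 : ∫ s in (0:ℝ)..1, (k : ℝ) * r ^ k * Real.sin (k * (Real.pi * s)) * (C * s) =
            (k : ℝ) * r ^ k * C * ∫ s in (0:ℝ)..1, s * Real.sin (Real.pi * k * s) := by
          rw [← intervalIntegral.integral_const_mul]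
          congr 1
          funext s
          rw [show (k : ℝ) * (Real.pi * s) = Real.pi * k * s by ring]
          ring
        rw [h1, integral_id_mul_sin k hk]
        have hk0 : (k : ℝ) ≠ 0 := by exact_mod_cast hk.ne'
        have hpi := Real.pi_ne_zero
        rw [neg_pow r k, pow_succ]
        field_simp
    have hBval : HasSum (fun k : ℕ => if k = 0 then (0:ℝ) else C / Real.pi * (-(-r) ^ k))
        (C / Real.pi * (1 - (1 + r)⁻¹)) := by
      have hg : HasSum (fun k : ℕ => (-r) ^ k) (1 - (-r))⁻¹ :=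
        hasSum_geometric_of_norm_lt_one (by rw [norm_neg, Real.norm_of_nonneg hr0]; exact hr1)
      have h1 : HasSum (fun k : ℕ => if k = 0 then (1:ℝ) else 0) 1 := hasSum_ite_eq 0 1
      have h2 := ((h1.sub hg).mul_left (C / Real.pi))
      rw [sub_neg_eq_add] at h2
      have h3 : (fun k : ℕ => if k = 0 then (0:ℝ) else C / Real.pi * (-(-r) ^ k)) =
          fun k : ℕ => C / Real.pi * ((if k = 0 then (1:ℝ) else 0) - (-r) ^ k) := by
        funext k
        by_cases hk : k = 0
        · subst hk; simp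
        · rw [if_neg hk, if_neg hk]; ring
      rw [h3]
      exact h2
    have hle : ∫ s in (0:ℝ)..1, w (Real.pi * s) * H (1 - s) ≤
        ∫ s in (0:ℝ)..1, w (Real.pi * s) * (C * s) := by
      have hwc : Continuous fun s => w (Real.pi * s) := by
        have : (fun s => w (Real.pi * s)) = fun s => ∑' k : ℕ, (k : ℝ) * r ^ k *
            Real.sin (k * (Real.pi * s)) := by
          funext s; exact (hw _).tsum_eq.symm
        rw [this]
        apply continuous_tsum (u := fun k : ℕ => (k : ℝ) * r ^ k)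
        · intro k; fun_prop
        · exact hsumr
        · intro k s
          rw [norm_mul, norm_mul, Real.norm_of_nonneg (Nat.cast_nonneg k),
            Real.norm_of_nonneg (pow_nonneg hr0 k)]
          exact mul_le_of_le_one_right (by positivity) (Real.abs_sin_le_one _)
      apply intervalIntegral.integral_mono_on (by norm_num)
      · exact Continuous.intervalIntegrable (hwc.mul (by fun_prop)) _ _
      · exact Continuous.intervalIntegrable (hwc.mul (by fun_prop)) _ _
      · intro s hs
        have h0 : 0 ≤ w (Real.pi * s) := by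
          apply hwpos
          apply Real.sin_nonneg_of_nonneg_of_le_pi
          · exact mul_nonneg Real.pi_pos.le hs.1
          · nlinarith [Real.pi_pos, hs.2]
        apply mul_le_mul_of_nonneg_left _ h0
        have := hb (1 - s) ⟨by linarith [hs.2], by linarith [hs.1]⟩
        rw [sub_sub_cancel] at this
        exact (le_abs_self _).trans this
    simp_rw [hAk] at hA
    simp_rw [hBk] at hB
    have hBeq := hB.unique hBval
    have h7 : ∑ k ∈ Finset.range N, r ^ k * (k * ((-1) ^ (k + 1) * h k)) ≤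
        ∫ s in (0:ℝ)..1, w (Real.pi * s) * H (1 - s) := by
      apply sum_le_hasSum _ _ hA
      intro k _
      exact mul_nonneg (pow_nonneg hr0 k) (mul_nonneg (Nat.cast_nonneg k) (hsign k))
    refine h7.trans (hle.trans ?_)
    rw [hBeq]
    have h8 : 0 ≤ 1 - (1 + r)⁻¹ := by
      rw [sub_nonneg]
      apply inv_le_one_of_one_le₀
      linarith
    have h9 : 1 - (1 + r)⁻¹ ≤ 1 := by
      have : 0 ≤ (1 + r)⁻¹ := by positivity
      linarith
    have h10 : C / Real.pi ≤ C := by
      apply div_le_self hC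
      linarith [Real.pi_gt_three]
    have h11 : 0 ≤ C / Real.pi := div_nonneg hC Real.pi_pos.le
    calc C / Real.pi * (1 - (1 + r)⁻¹) ≤ C * 1 := mul_le_mul h10 h9 h8 hC
      _ = C := mul_one C
  apply summable_of_sum_range_le (c := C)
  · intro k
    exact mul_nonneg (Nat.cast_nonneg k) (hsign k)
  · intro N
    have hcont : Continuous fun r : ℝ =>
        ∑ k ∈ Finset.range N, r ^ k * (k * ((-1) ^ (k + 1) * h k)) := by fun_prop
    have ht : Tendsto (fun r : ℝ => ∑ k ∈ Finset.range N, r ^ k * (k * ((-1) ^ (k + 1) * h k)))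
        (𝓝[<] 1) (𝓝 (∑ k ∈ Finset.range N, (1:ℝ) ^ k * (k * ((-1) ^ (k + 1) * h k)))) :=
      (hcont.tendsto 1).mono_left nhdsWithin_le_nhds
    simp only [one_pow, one_mul] at ht
    apply le_of_tendsto ht
    filter_upwards [Ico_mem_nhdsLT (show (0:ℝ) < 1 by norm_num)] with r hr
    exact habel r hr.1 hr.2 N

end Pool.Agent.Helper45.Bern
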