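import Mathlib

/-!
# Injectivity of a Volterra operator of the first kind
-/

set_option autoImplicit false

open MeasureTheory Set Filter Topology

namespace Pool.Agent.Helper45.Bern

/-- If `φ` is continuous and `∫₀ᵗ J(t²-s²) φ(s) ds = 0` for `t ∈ [0,1]`, where `J` is `C¹` and
`J(0) = 1`, then `φ = 0` on `[0,1]`. -/
theorem volterra_injective {J J' φ : ℝ → ℝ} (hJ : ∀ y, HasDerivAt J (J' y) y)
    (hJ' : Continuous J') (hJ0 : J 0 = 1) (hφ : Continuous φ)
    (h : ∀ t ∈ Icc (0:ℝ) 1, ∫ s in (0:ℝ)..t, J (t ^ 2 - s ^ 2) * φ s = 0) :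
    ∀ t ∈ Icc (0:ℝ) 1, φ t = 0 := by
  set Φ : ℝ → ℝ := fun t => ∫ s in (0:ℝ)..t, φ s with hΦ
  have hΦd : ∀ t, HasDerivAt Φ (φ t) t := fun t =>
    intervalIntegral.integral_hasDerivAt_right (hφ.intervalIntegrable _ _)
      hφ.aestronglyMeasurable.stronglyMeasurableAtFilter hφ.continuousAt
  have hΦc : Continuous Φ := continuous_iff_continuousAt.2 fun t => (hΦd t).continuousAt
  have hΦ0 : Φ 0 = 0 := by simp [hΦ]
  obtain ⟨M, hM⟩ : ∃ M, ∀ y ∈ Icc (0:ℝ) 1, |J' y| ≤ M := by
    obtain ⟨M, hM⟩ := isCompact_Icc.exists_bound_of_continuousOn (s := Icc (0:ℝ) 1) hJ'.continuousOn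
    exact ⟨M, fun y hy => hM y hy⟩
  have hM0 : 0 ≤ M := (abs_nonneg _).trans (hM 0 (by simp))
  have hJc : Continuous J := continuous_iff_continuousAt.2 fun y => (hJ y).continuousAt
  have hkey : ∀ t ∈ Icc (0:ℝ) 1, Φ t = - ∫ s in (0:ℝ)..t, (2 * s * J' (t ^ 2 - s ^ 2)) * Φ s := by
    intro t ht
    have hu : ∀ s, HasDerivAt (fun s => J (t ^ 2 - s ^ 2)) (-(2 * s * J' (t ^ 2 - s ^ 2))) s := by
      intro s
      have h1 : HasDerivAt (fun s : ℝ => t ^ 2 - s ^ 2) (-(2 * s)) s := by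
        have := (hasDerivAt_pow 2 s).const_sub (t ^ 2)
        simpa using this
      have h2 := (hJ (t ^ 2 - s ^ 2)).comp s h1
      rw [show -(2 * s * J' (t ^ 2 - s ^ 2)) = J' (t ^ 2 - s ^ 2) * -(2 * s) by ring]
      exact h2
    have h3 := intervalIntegral.integral_mul_deriv_eq_deriv_mul (a := 0) (b := t)
      (u := fun s => J (t ^ 2 - s ^ 2)) (v := Φ) (u' := fun s => -(2 * s * J' (t ^ 2 - s ^ 2)))
      (v' := φ) (fun s _ => hu s) (fun s _ => hΦd s)
      (Continuous.intervalIntegrable (by fun_prop) _ _) (hφ.intervalIntegrable _ _)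
    rw [h t ht, sub_self, hJ0, hΦ0, mul_zero, sub_zero, one_mul] at h3
    have h4 : ∫ s in (0:ℝ)..t, -(2 * s * J' (t ^ 2 - s ^ 2)) * Φ s =
        - ∫ s in (0:ℝ)..t, (2 * s * J' (t ^ 2 - s ^ 2)) * Φ s := by
      rw [← intervalIntegral.integral_neg]
      congr 1
      funext s; ring
    rw [h4] at h3
    linarith
  set W : ℝ → ℝ := fun t => ∫ s in (0:ℝ)..t, |Φ s| with hW
  have hWd : ∀ t, HasDerivAt W |Φ t| t := fun t =>
    intervalIntegral.integral_hasDerivAt_right (hΦc.abs.intervalIntegrable _ _)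
      hΦc.abs.aestronglyMeasurable.stronglyMeasurableAtFilter hΦc.abs.continuousAt
  have hbound : ∀ t ∈ Icc (0:ℝ) 1, |Φ t| ≤ 2 * M * W t := by
    intro t ht
    rw [hkey t ht, abs_neg]
    calc |∫ s in (0:ℝ)..t, (2 * s * J' (t ^ 2 - s ^ 2)) * Φ s|
        ≤ ∫ s in (0:ℝ)..t, |(2 * s * J' (t ^ 2 - s ^ 2)) * Φ s| :=
          intervalIntegral.abs_integral_le_integral_abs ht.1
      _ ≤ ∫ s in (0:ℝ)..t, 2 * M * |Φ s| := by
          apply intervalIntegral.integral_mono_on ht.1
          · exact Continuous.intervalIntegrable (by fun_prop) _ _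
          · exact Continuous.intervalIntegrable (by fun_prop) _ _
          · intro s hs
            rw [abs_mul, abs_mul, abs_mul, abs_two, abs_of_nonneg hs.1]
            have hs1 : s ≤ 1 := hs.2.trans ht.2
            have h5 : |J' (t ^ 2 - s ^ 2)| ≤ M := by
              apply hM
              constructor
              · nlinarith [hs.1, hs.2, ht.1]
              · nlinarith [hs.1, ht.1, ht.2]
            have h6 : 2 * s * |J' (t ^ 2 - s ^ 2)| ≤ 2 * M := by
              have := mul_le_mul (mul_le_mul_of_nonneg_left hs1 (by norm_num : (0:ℝ) ≤ 2)) h5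
                (abs_nonneg _) (by norm_num)
              linarith
            exact mul_le_mul_of_nonneg_right h6 (abs_nonneg _)
      _ = 2 * M * W t := by rw [intervalIntegral.integral_const_mul]
  have hW0 : ∀ t ∈ Icc (0:ℝ) 1, W t = 0 := by
    have h1 := norm_le_gronwallBound_of_norm_deriv_right_le (f := W) (f' := fun t => |Φ t|)
      (δ := 0) (K := 2 * M) (ε := 0) (a := 0) (b := 1)
      (continuous_iff_continuousAt.2 fun t => (hWd t).continuousAt).continuousOn
      (fun t _ => (hWd t).hasDerivWithinAt) (by simp [hW])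
      (fun t ht => by
        rw [Real.norm_eq_abs, abs_abs, add_zero]
        refine (hbound t ⟨ht.1, ht.2.le⟩).trans ?_
        exact mul_le_mul_of_nonneg_left (le_abs_self _) (by positivity))
    intro t ht
    have h2 := h1 t ht
    rw [gronwallBound_ε0_δ0] at h2
    exact norm_le_zero_iff.1 h2
  have hΦz : ∀ t ∈ Icc (0:ℝ) 1, Φ t = 0 := by
    intro t ht
    have := hbound t ht
    rw [hW0 t ht, mul_zero] at this
    exact abs_eq_zero.1 (le_antisymm this (abs_nonneg _))
  have h2 : ∀ t ∈ Ioo (0:ℝ) 1, φ t = 0 := by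
    intro t ht
    have h3 : HasDerivAt Φ 0 t := by
      apply (hasDerivAt_const t (0:ℝ)).congr_of_eventuallyEq
      filter_upwards [Ioo_mem_nhds ht.1 ht.2] with s hs
      exact hΦz s ⟨hs.1.le, hs.2.le⟩
    exact (hΦd t).unique h3
  intro t ht
  have hcl : t ∈ closure (Ioo (0:ℝ) 1) := by
    rw [closure_Ioo (by norm_num)]; exact ht
  have hclosed : IsClosed {t | φ t = 0} := isClosed_eq hφ continuous_const
  exact hclosed.closure_subset_iff.2 (fun s hs => h2 s hs) hcl

end Pool.Agent.Helper45.Bern
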