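import Pool.Agent.Helper45.Bern.Coef2
import Pool.Agent.Helper45.Bern.Sum
import Pool.Agent.Helper45.Bern.Volterra

/-!
# The expansion `(1-ξ)^α = ∑ a_k cos(x_k ξ)`
-/

set_option autoImplicit false

open MeasureTheory Set Filter Topology
open Pool.Agent.Helper5.Bern

namespace Pool.Agent.Helper45.Bern

theorem hasDerivAt_pk (c s t : ℝ) :
    HasDerivAt (fun t => pk c t s) (-(besP 1 (c ^ 2 * (t ^ 2 - s ^ 2) / 4)) * (c ^ 2 * t / 2)) t := by
  have h1 : HasDerivAt (fun t : ℝ => c ^ 2 * (t ^ 2 - s ^ 2) / 4) (c ^ 2 * t / 2) t := by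
    have h := (((hasDerivAt_pow 2 t).sub_const (s ^ 2)).const_mul (c ^ 2)).div_const 4
    refine h.congr_deriv ?_
    push_cast
    ring
  exact (hasDerivAt_besP 0 (c ^ 2 * (t ^ 2 - s ^ 2) / 4)).comp t h1

theorem Hf_lipschitz {α c : ℝ} (hα : 0 < α) (hΨ : Psi α c = 0) :
    ∃ C : ℝ, 0 ≤ C ∧ ∀ t ∈ Icc (0:ℝ) 1, |Hf α c t| ≤ C * (1 - t) := by
  obtain ⟨M1, hM1⟩ := (isCompact_Icc.prod isCompact_Icc).exists_bound_of_continuousOn
    (s := Icc (0:ℝ) 1 ×ˢ Icc (0:ℝ) 1) (continuous_pk c).continuousOn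
  have hdc : Continuous fun p : ℝ × ℝ =>
      -(besP 1 (c ^ 2 * (p.1 ^ 2 - p.2 ^ 2) / 4)) * (c ^ 2 * p.1 / 2) :=
    (((continuous_besP 1).comp (by fun_prop)).neg).mul (by fun_prop)
  obtain ⟨M2, hM2⟩ := (isCompact_Icc.prod isCompact_Icc).exists_bound_of_continuousOn
    (s := Icc (0:ℝ) 1 ×ˢ Icc (0:ℝ) 1) hdc.continuousOn
  have hM10 : 0 ≤ M1 := (norm_nonneg _).trans (hM1 (0, 0) (by simp))
  have hM20 : 0 ≤ M2 := (norm_nonneg _).trans (hM2 (0, 0) (by simp))
  refine ⟨M1 + M2, by linarith, ?_⟩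
  intro t ht
  have hτ : ∀ s ∈ Icc (0:ℝ) 1, |(1 - s) ^ α| ≤ 1 := by
    intro s hs
    rw [abs_of_nonneg (Real.rpow_nonneg (by linarith [hs.2]) _)]
    exact Real.rpow_le_one (by linarith [hs.2]) (by linarith [hs.1]) hα.le
  have hτc := continuous_one_sub_rpow hα
  have hpkc : ∀ t, Continuous fun s => pk c t s := fun t =>
    (continuous_pk c).comp (by fun_prop : Continuous fun s : ℝ => (t, s))
  have h1 : Hf α c t = - ((∫ s in t..1, pk c 1 s * (1 - s) ^ α) +
      ∫ s in (0:ℝ)..t, (pk c 1 s - pk c t s) * (1 - s) ^ α) := by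
    have h2 : Hf α c 1 = (∫ s in (0:ℝ)..t, pk c 1 s * (1 - s) ^ α) +
        ∫ s in t..1, pk c 1 s * (1 - s) ^ α := by
      rw [Hf, intervalIntegral.integral_add_adjacent_intervals]
      · exact ((hpkc 1).mul hτc).intervalIntegrable _ _
      · exact ((hpkc 1).mul hτc).intervalIntegrable _ _
    rw [Hf_one, hΨ] at h2
    have h3 : ∫ s in (0:ℝ)..t, (pk c 1 s - pk c t s) * (1 - s) ^ α =
        (∫ s in (0:ℝ)..t, pk c 1 s * (1 - s) ^ α) - Hf α c t := by
      rw [Hf, ← intervalIntegral.integral_sub]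
      · congr 1
        funext s; ring
      · exact ((hpkc 1).mul hτc).intervalIntegrable _ _
      · exact ((hpkc t).mul hτc).intervalIntegrable _ _
    rw [h3]
    linarith
  rw [h1, abs_neg]
  have h4 : |∫ s in t..1, pk c 1 s * (1 - s) ^ α| ≤ M1 * (1 - t) := by
    have := intervalIntegral.norm_integral_le_of_norm_le_const (a := t) (b := 1) (C := M1)
      (f := fun s => pk c 1 s * (1 - s) ^ α) (fun s hs => by
        rw [uIoc_of_le ht.2] at hs
        have hs' : s ∈ Icc (0:ℝ) 1 := ⟨ht.1.trans hs.1.le, hs.2⟩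
        rw [norm_mul]
        have e1 : ‖pk c 1 s‖ ≤ M1 := hM1 (1, s) ⟨by simp, hs'⟩
        have e2 : ‖(1 - s) ^ α‖ ≤ 1 := hτ s hs'
        calc ‖pk c 1 s‖ * ‖(1 - s) ^ α‖ ≤ M1 * 1 := mul_le_mul e1 e2 (norm_nonneg _) hM10
          _ = M1 := mul_one _)
    rw [abs_of_nonneg (by linarith [ht.2] : (0:ℝ) ≤ 1 - t)] at this
    exact this
  have h5 : |∫ s in (0:ℝ)..t, (pk c 1 s - pk c t s) * (1 - s) ^ α| ≤ M2 * (1 - t) := by
    have := intervalIntegral.norm_integral_le_of_norm_le_const (a := 0) (b := t)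
      (C := M2 * (1 - t))
      (f := fun s => (pk c 1 s - pk c t s) * (1 - s) ^ α) (fun s hs => by
        rw [uIoc_of_le ht.1] at hs
        have hs' : s ∈ Icc (0:ℝ) 1 := ⟨hs.1.le, hs.2.trans ht.2⟩
        rw [norm_mul]
        have e1 : ‖pk c 1 s - pk c t s‖ ≤ M2 * (1 - t) := by
          have := (convex_Icc (0:ℝ) 1).norm_image_sub_le_of_norm_hasDerivWithin_le
            (f := fun t => pk c t s) (C := M2) (x := t) (y := 1)
            (f' := fun t => -(besP 1 (c ^ 2 * (t ^ 2 - s ^ 2) / 4)) * (c ^ 2 * t / 2))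
            (fun u _ => (hasDerivAt_pk c s u).hasDerivWithinAt)
            (fun u hu => hM2 (u, s) ⟨hu, hs'⟩) ht (by simp)
          rw [Real.norm_of_nonneg (by linarith [ht.2] : (0:ℝ) ≤ 1 - t)] at this
          exact this
        have e2 : ‖(1 - s) ^ α‖ ≤ 1 := hτ s hs'
        calc ‖pk c 1 s - pk c t s‖ * ‖(1 - s) ^ α‖ ≤ (M2 * (1 - t)) * 1 :=
              mul_le_mul e1 e2 (norm_nonneg _) (mul_nonneg hM20 (by linarith [ht.2]))
          _ = M2 * (1 - t) := mul_one _)
    rw [sub_zero, abs_of_nonneg ht.1] at this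
    refine this.trans ?_
    have h6 : 0 ≤ M2 * (1 - t) := mul_nonneg hM20 (by linarith [ht.2])
    nlinarith [ht.2, ht.1]
  calc |(∫ s in t..1, pk c 1 s * (1 - s) ^ α) +
      ∫ s in (0:ℝ)..t, (pk c 1 s - pk c t s) * (1 - s) ^ α| ≤ _ + _ := abs_add_le _ _
    _ ≤ M1 * (1 - t) + M2 * (1 - t) := add_le_add h4 h5
    _ = (M1 + M2) * (1 - t) := by ring

theorem sin_orth (k m : ℕ) : ∫ t in (0:ℝ)..1, Real.sin (Real.pi * k * t) * Real.sin (Real.pi * m * t) =
    if k = m ∧ m ≠ 0 then 1 / 2 else 0 := by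
  by_cases hkm : k = m
  · subst hkm
    by_cases hk : k = 0
    · subst hk; simp
    · rw [if_pos ⟨rfl, hk⟩]
      have hk0 : (Real.pi * k : ℝ) ≠ 0 := by
        have : (0 : ℝ) < k := by exact_mod_cast Nat.pos_of_ne_zero hk
        positivity
      have hd : ∀ t ∈ uIcc (0:ℝ) 1, HasDerivAt (fun t => t / 2 -
          Real.sin (Real.pi * k * t) * Real.cos (Real.pi * k * t) / (2 * (Real.pi * k)))
          (Real.sin (Real.pi * k * t) * Real.sin (Real.pi * k * t)) t := by
        intro t _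
        have h1 : HasDerivAt (fun s : ℝ => Real.pi * k * s) (Real.pi * k) t := by
          have := (hasDerivAt_id t).const_mul (Real.pi * k)
          simpa using this
        have h2 := ((hasDerivAt_id t).div_const 2).sub
          ((h1.sin.mul h1.cos).div_const (2 * (Real.pi * k)))
        refine h2.congr_deriv ?_
        have h3 := Real.sin_sq_add_cos_sq (Real.pi * k * t)
        field_simp
        linear_combination (-1 : ℝ) * h3
      rw [intervalIntegral.integral_eq_sub_of_hasDerivAt hd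
        (Continuous.intervalIntegrable (by fun_prop) _ _)]
      simp [sin_pik]
  · rw [if_neg (fun h => hkm h.1)]
    have h1 := trig2 (Real.pi * k) (Real.pi * m) (sin_pik k)
    rw [sin_pik m, mul_zero, neg_zero] at h1
    rcases mul_eq_zero.1 h1 with h2 | h2
    · exfalso
      have h3 : Real.pi ^ 2 * ((k:ℝ) ^ 2 - (m:ℝ) ^ 2) = 0 := by linarith [h2, show (Real.pi * k) ^ 2 - (Real.pi * m) ^ 2 = Real.pi ^ 2 * ((k:ℝ) ^ 2 - (m:ℝ) ^ 2) by ring]
      rcases mul_eq_zero.1 h3 with h4 | h4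
      · exact pow_ne_zero 2 Real.pi_ne_zero h4
      · have h5 : (k:ℝ) ^ 2 = (m:ℝ) ^ 2 := by linarith
        have h6 : (k:ℝ) = m := by
          rw [← abs_of_nonneg (Nat.cast_nonneg (α := ℝ) k), ← abs_of_nonneg (Nat.cast_nonneg (α := ℝ) m)]
          exact (sq_eq_sq_iff_abs_eq_abs _ _).1 h5
        exact hkm (by exact_mod_cast h6)
    · exact h2

/-- Sine series of a continuous function with summable coefficients. -/
theorem sine_series {H : ℝ → ℝ} (hH : Continuous H)
    (hs : Summable (fun k : ℕ => |∫ t in (0:ℝ)..1, H t * Real.sin (Real.pi * k * t)|))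
    (t : ℝ) (ht : t ∈ Icc (0:ℝ) 1) :
    HasSum (fun k : ℕ => 2 * (∫ t in (0:ℝ)..1, H t * Real.sin (Real.pi * k * t)) *
      Real.sin (Real.pi * k * t)) (H t) := by
  set h : ℕ → ℝ := fun k => ∫ t in (0:ℝ)..1, H t * Real.sin (Real.pi * k * t) with hh
  have hs2 : Summable (fun k : ℕ => 2 * |h k|) := hs.mul_left 2
  have hbd : ∀ (k : ℕ) (t : ℝ), |2 * h k * Real.sin (Real.pi * k * t)| ≤ 2 * |h k| := by
    intro k t
    rw [abs_mul, abs_mul, abs_two]
    exact mul_le_of_le_one_right (by positivity) (Real.abs_sin_le_one _)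
  have hsum : ∀ t : ℝ, Summable (fun k : ℕ => 2 * h k * Real.sin (Real.pi * k * t)) := fun t =>
    Summable.of_norm_bounded hs2 (fun k => hbd k t)
  set S : ℝ → ℝ := fun t => ∑' k : ℕ, 2 * h k * Real.sin (Real.pi * k * t) with hS
  have hSc : Continuous S := continuous_tsum (fun k => by fun_prop) hs2 (fun k t => hbd k t)
  have hcoef : ∀ m : ℕ, ∫ t in (0:ℝ)..1, S t * Real.sin (Real.pi * m * t) = h m := by
    intro m
    have h1 : HasSum (fun k : ℕ => ∫ t in (0:ℝ)..1, 2 * h k * Real.sin (Real.pi * k * t) *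
        Real.sin (Real.pi * m * t)) (∫ t in (0:ℝ)..1, S t * Real.sin (Real.pi * m * t)) := by
      apply hasSum_integral_const (b := fun k => 2 * |h k|) (fun k => by fun_prop) hs2
      · intro k t _
        rw [abs_mul]
        exact mul_le_of_le_one_right (abs_nonneg _) (Real.abs_sin_le_one _) |>.trans (hbd k t)
      · intro t _
        exact (hsum t).hasSum.mul_right _
    have h2 : ∀ k : ℕ, ∫ t in (0:ℝ)..1, 2 * h k * Real.sin (Real.pi * k * t) *
        Real.sin (Real.pi * m * t) = if k = m then h m else 0 := by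
      intro k
      have h3 : ∫ t in (0:ℝ)..1, 2 * h k * Real.sin (Real.pi * k * t) *
        Real.sin (Real.pi * m * t) = 2 * h k * ∫ t in (0:ℝ)..1, Real.sin (Real.pi * k * t) *
        Real.sin (Real.pi * m * t) := by
        rw [← intervalIntegral.integral_const_mul (2 * h k)]
        congr 1
        funext t; ring
      rw [h3, sin_orth]
      by_cases hkm : k = m
      · subst hkm
        by_cases hk : k = 0
        · subst hk
          simp [hh]
        · rw [if_pos ⟨rfl, hk⟩, if_pos rfl]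
          ring
      · rw [if_neg (fun h => hkm h.1), if_neg hkm, mul_zero]
    simp_rw [h2] at h1
    exact h1.unique (hasSum_ite_eq m (h m))
  have hD : ∀ t ∈ Icc (0:ℝ) 1, H t - S t = 0 := by
    apply eq_zero_of_sin_coeff (f := fun t => H t - S t) (hH.sub hSc).continuousOn
    intro m
    have h1 : ∫ t in (0:ℝ)..1, (H t - S t) * Real.sin (Real.pi * m * t) =
        (∫ t in (0:ℝ)..1, H t * Real.sin (Real.pi * m * t)) -
        ∫ t in (0:ℝ)..1, S t * Real.sin (Real.pi * m * t) := by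
      rw [← intervalIntegral.integral_sub]
      · congr 1
        funext t; ring
      · exact (hH.mul (by fun_prop)).intervalIntegrable _ _
      · exact (hSc.mul (by fun_prop)).intervalIntegrable _ _
    rw [h1, hcoef]
    exact sub_self _
  have h3 := hD t ht
  have h4 : H t = S t := by linarith
  rw [h4]
  exact (hsum t).hasSum

/-- the weights -/
noncomputable def ak (α c : ℝ) (k : ℕ) : ℝ :=
  2 * Real.pi * k * ∫ t in (0:ℝ)..1, Hf α c t * Real.sin (Real.pi * k * t)

theorem ak_zero (α c : ℝ) : ak α c 0 = 0 := by simp [ak]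

theorem ak_eq {α c : ℝ} (hα : 0 < α) (hS : SonineId c) (hc0 : 0 < c) (hc : c < Real.pi)
    {k : ℕ} (hk : 1 ≤ k) (hΨ : Psi α c = 0) :
    ak α c k = (-1) ^ (k + 1) * (2 * (Real.pi * k) ^ 2 / xk c k ^ 2 * (α * Ef α c k)) := by
  rw [ak, sine_coef hα hS hc0 hc hk hΨ]
  ring

section main

variable {α c : ℝ} (hα : 0 < α) (hS : SonineId c) (hc0 : 0 < c) (hc : c < Real.pi)
  (hΨ : Psi α c = 0) (hE : ∀ k : ℕ, 1 ≤ k → 0 ≤ Ef α c k)

include hα hS hc0 hc hΨ hE

theorem sign_h (k : ℕ) :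
    0 ≤ (-1) ^ (k + 1) * ∫ t in (0:ℝ)..1, Hf α c t * Real.sin (Real.pi * k * t) := by
  rcases Nat.eq_zero_or_pos k with hk | hk
  · subst hk; simp
  · rw [sine_coef hα hS hc0 hc hk hΨ]
    have hx := xk_pos hc0 hc hk
    have h1 := hE k hk
    have h2 : (0:ℝ) ≤ Real.pi * k / xk c k ^ 2 := by positivity
    have h3 : ((-1 : ℝ)) ^ (k + 1) * (-1) ^ (k + 1) = 1 := by
      rw [← mul_pow]; norm_num
    rw [show (-1 : ℝ) ^ (k + 1) * ((-1) ^ (k + 1) * (Real.pi * k / xk c k ^ 2) * (α * Ef α c k)) =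
      ((-1 : ℝ) ^ (k + 1) * (-1) ^ (k + 1)) * ((Real.pi * k / xk c k ^ 2) * (α * Ef α c k)) by ring,
      h3, one_mul]
    positivity

theorem abs_ak (k : ℕ) : |ak α c k| = (-1) ^ (k + 1) * ak α c k := by
  have h1 := sign_h hα hS hc0 hc hΨ hE k
  have h2 : 0 ≤ (-1) ^ (k + 1) * ak α c k := by
    have : (-1) ^ (k + 1) * ak α c k = 2 * Real.pi * k * ((-1) ^ (k + 1) *
        ∫ t in (0:ℝ)..1, Hf α c t * Real.sin (Real.pi * k * t)) := by
      rw [ak]; ring
    rw [this]
    exact mul_nonneg (mul_nonneg (mul_nonneg (by norm_num) Real.pi_pos.le) (Nat.cast_nonneg k)) h1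
  rw [← abs_of_nonneg h2, abs_mul, abs_pow, abs_neg, abs_one, one_pow, one_mul]

theorem summable_ak : Summable (fun k : ℕ => |ak α c k|) := by
  obtain ⟨C, hC, hb⟩ := Hf_lipschitz hα hΨ
  have h1 := summable_of_sign (continuous_Hf hα c) hC hb (sign_h hα hS hc0 hc hΨ hE)
  refine (h1.mul_left (2 * Real.pi)).congr ?_
  intro k
  rw [ak, mul_assoc (2 * Real.pi), abs_mul (2 * Real.pi), abs_of_pos (by positivity : 0 < 2 * Real.pi)]

theorem summable_h : Summable
    (fun k : ℕ => |∫ t in (0:ℝ)..1, Hf α c t * Real.sin (Real.pi * k * t)|) := by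
  obtain ⟨C, hC, hb⟩ := Hf_lipschitz hα hΨ
  have h1 := summable_of_sign (continuous_Hf hα c) hC hb (sign_h hα hS hc0 hc hΨ hE)
  refine Summable.of_nonneg_of_le (fun k => abs_nonneg _) (fun k => ?_) h1
  rcases Nat.eq_zero_or_pos k with hk | hk
  · subst hk; simp
  · rw [abs_mul, Nat.abs_cast]
    have : (1:ℝ) ≤ k := by exact_mod_cast hk
    exact le_mul_of_one_le_left (abs_nonneg _) this

/-- **The expansion.** -/
theorem expansion (ξ : ℝ) (hξ : ξ ∈ Icc (0:ℝ) 1) :
    HasSum (fun k : ℕ => ak α c k * Real.cos (xk c k * ξ)) ((1 - ξ) ^ α) := by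
  have hsa := summable_ak hα hS hc0 hc hΨ hE
  have hbd : ∀ (k : ℕ) (ξ : ℝ), |ak α c k * Real.cos (xk c k * ξ)| ≤ |ak α c k| := by
    intro k ξ
    rw [abs_mul]
    exact mul_le_of_le_one_right (abs_nonneg _) (Real.abs_cos_le_one _)
  have hsum : ∀ ξ : ℝ, Summable (fun k : ℕ => ak α c k * Real.cos (xk c k * ξ)) := fun ξ =>
    Summable.of_norm_bounded hsa (fun k => hbd k ξ)
  set D : ℝ → ℝ := fun ξ => ∑' k : ℕ, ak α c k * Real.cos (xk c k * ξ) with hD
  have hDc : Continuous D := continuous_tsum (fun k => by fun_prop) hsa (fun k t => hbd k t)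
  have hpkc : ∀ t, Continuous fun s => pk c t s := fun t =>
    (continuous_pk c).comp (by fun_prop : Continuous fun s : ℝ => (t, s))
  have hRD : ∀ t ∈ Icc (0:ℝ) 1, ∫ s in (0:ℝ)..t, pk c t s * D s = Hf α c t := by
    intro t ht
    obtain ⟨M, hM⟩ := isCompact_Icc.exists_bound_of_continuousOn (s := Icc (0:ℝ) t)
      (hpkc t).continuousOn
    have hM0 : 0 ≤ M := (norm_nonneg _).trans (hM 0 ⟨le_rfl, ht.1⟩)
    have h1 : HasSum (fun k : ℕ => ∫ s in (0:ℝ)..t, pk c t s * (ak α c k * Real.cos (xk c k * s)))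
        (∫ s in (0:ℝ)..t, pk c t s * D s) := by
      apply hasSum_integral_const (b := fun k => M * |ak α c k|)
      · intro k
        exact (hpkc t).mul (by fun_prop)
      · exact hsa.mul_left M
      · intro k s hs
        rw [uIcc_of_le ht.1] at hs
        rw [abs_mul]
        exact mul_le_mul (hM s hs) (hbd k s) (abs_nonneg _) hM0
      · intro s _
        exact (hsum s).hasSum.mul_left _
    have h2 : ∀ k : ℕ, ∫ s in (0:ℝ)..t, pk c t s * (ak α c k * Real.cos (xk c k * s)) =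
        2 * (∫ t in (0:ℝ)..1, Hf α c t * Real.sin (Real.pi * k * t)) * Real.sin (Real.pi * k * t) := by
      intro k
      rcases Nat.eq_zero_or_pos k with hk | hk
      · subst hk; simp [ak_zero]
      · have h3 : ∫ s in (0:ℝ)..t, pk c t s * (ak α c k * Real.cos (xk c k * s)) =
            ak α c k * ∫ s in (0:ℝ)..t, pk c t s * Real.cos (xk c k * s) := by
          rw [← intervalIntegral.integral_const_mul]
          congr 1
          funext s; ring
        rw [h3, hS _ t ht.1 ht.2, sqrt_xk hc0 hc hk, ak]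
        have : (k : ℝ) ≠ 0 := by exact_mod_cast hk.ne'
        have := Real.pi_ne_zero
        field_simp
    simp_rw [h2] at h1
    exact h1.unique (sine_series (continuous_Hf hα c) (summable_h hα hS hc0 hc hΨ hE) t ht)
  have hzero := volterra_injective (J := fun y => besP 0 (c ^ 2 * y / 4))
    (J' := fun y => -(besP 1 (c ^ 2 * y / 4)) * (c ^ 2 / 4)) (φ := fun s => D s - (1 - s) ^ α)
    (fun y => by
      have h1 : HasDerivAt (fun y : ℝ => c ^ 2 * y / 4) (c ^ 2 / 4) y := by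
        have := ((hasDerivAt_id y).const_mul (c ^ 2)).div_const 4
        simpa using this
      exact (hasDerivAt_besP 0 (c ^ 2 * y / 4)).comp y h1)
    ((((continuous_besP 1).comp (by fun_prop)).neg).mul continuous_const)
    (by norm_num [besP_zero])
    (hDc.sub (continuous_one_sub_rpow hα))
    (fun t ht => by
      have h1 : ∫ s in (0:ℝ)..t, besP 0 (c ^ 2 * (t ^ 2 - s ^ 2) / 4) * (D s - (1 - s) ^ α) =
          (∫ s in (0:ℝ)..t, pk c t s * D s) - Hf α c t := by
        rw [Hf, ← intervalIntegral.integral_sub]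
        · congr 1
          funext s
          rw [pk]; ring
        · exact ((hpkc t).mul hDc).intervalIntegrable _ _
        · exact ((hpkc t).mul (continuous_one_sub_rpow hα)).intervalIntegrable _ _
      rw [h1, hRD t ht, sub_self])
  have h1 := hzero ξ hξ
  have h2 : (1 - ξ) ^ α = D ξ := by linarith
  rw [h2]
  exact (hsum ξ).hasSum

end main

end Pool.Agent.Helper45.Bern
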