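import Pool.Agent.Helper45.Bern.Norm
import Pool.Agent.Helper5.BernH

/-!
# Uniqueness of the zero of `bernPsi α` in `(0, π)` and the value of `I(α)`
-/

set_option autoImplicit false

open MeasureTheory Set Filter Topology

namespace Pool.Agent.Helper45.Bern

theorem besP_zero_strictAnti : StrictAntiOn (Pool.Agent.Helper5.Bern.besP 0) (Icc 0 (5 / 2)) := by
  apply strictAntiOn_of_deriv_neg (convex_Icc _ _)
    (Pool.Agent.Helper5.Bern.continuous_besP 0).continuousOn
  intro y hy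
  rw [interior_Icc] at hy
  rw [(Pool.Agent.Helper5.Bern.hasDerivAt_besP 0 y).deriv]
  exact neg_neg_of_pos (Pool.Agent.Helper5.Bern.besP_one_pos hy.1.le hy.2.le)

theorem Psi_strictAnti {α c c' : ℝ} (hα : 0 < α) (hc : 0 < c) (hcc : c < c') (hc' : c' < Real.pi) :
    Psi α c' < Psi α c := by
  have hπ := Real.pi_lt_d2
  have h10 : c' ^ 2 ≤ 10 := by nlinarith
  have hcont : ∀ c : ℝ, Continuous fun s => (1 - s) ^ α * Pool.Agent.Helper5.Bern.besR c s := fun c =>
    (continuous_one_sub_rpow hα).mul (Pool.Agent.Helper5.Bern.continuous_besR c)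
  have h1 : 0 < ∫ s in (0:ℝ)..1, ((1 - s) ^ α * Pool.Agent.Helper5.Bern.besR c s -
      (1 - s) ^ α * Pool.Agent.Helper5.Bern.besR c' s) := by
    apply intervalIntegral.intervalIntegral_pos_of_pos_on
    · exact ((hcont c).sub (hcont c')).intervalIntegrable _ _
    · intro s hs
      have hs1 : 0 < 1 - s := by linarith [hs.2]
      have h2 : 0 < 1 - s ^ 2 := by nlinarith [hs.1, hs.2]
      have h3 : 1 - s ^ 2 ≤ 1 := by nlinarith [sq_nonneg s]
      have h4 : Pool.Agent.Helper5.Bern.besR c' s < Pool.Agent.Helper5.Bern.besR c s := by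
        rw [Pool.Agent.Helper5.Bern.besR_eq, Pool.Agent.Helper5.Bern.besR_eq]
        have hsq : c ^ 2 < c' ^ 2 := by nlinarith
        apply besP_zero_strictAnti
        · constructor
          · positivity
          · nlinarith [mul_le_mul h10 h3 h2.le (by norm_num : (0:ℝ) ≤ 10)]
        · constructor
          · positivity
          · nlinarith [mul_le_mul h10 h3 h2.le (by norm_num : (0:ℝ) ≤ 10)]
        · nlinarith
      have h5 : 0 < (1 - s) ^ α := Real.rpow_pos_of_pos hs1 _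
      nlinarith
    · norm_num
  rw [intervalIntegral.integral_sub ((hcont c).intervalIntegrable _ _)
    ((hcont c').intervalIntegrable _ _)] at h1
  unfold Psi
  linarith

theorem Psi_zero_unique {α c c' : ℝ} (hα : 0 < α) (hc : c ∈ Ioo (0:ℝ) Real.pi)
    (hc' : c' ∈ Ioo (0:ℝ) Real.pi) (h : Psi α c = 0) (h' : Psi α c' = 0) : c' = c := by
  rcases lt_trichotomy c' c with hlt | heq | hgt
  · have := Psi_strictAnti hα hc'.1 hlt hc.2
    linarith
  · exact heq
  · have := Psi_strictAnti hα hc.1 hgt hc'.2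
    linarith

/-- Value of `I(α)` when the weights have the right signs. -/
theorem value_of_param {α c : ℝ} (hα : 0 < α) (hc0 : 0 < c) (hc : c < Real.pi)
    (hΨ : Psi α c = 0) (hE : ∀ k : ℕ, 1 ≤ k → 0 ≤ Ef α c k) :
    ∃ c ∈ Ioo (0 : ℝ) Real.pi, bernPsi α c = 0 ∧
      (∀ c' ∈ Ioo (0 : ℝ) Real.pi, bernPsi α c' = 0 → c' = c) ∧
      bernsteinNorm α = bernG α c ∧ IsGreatest (Set.range (bernG α)) (bernsteinNorm α) := by
  obtain ⟨μ, hμ, hμ2⟩ := exists_admissible_le hα hc0 hc hΨ hE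
  have heq := bernsteinNorm_eq hα hc0 hc hΨ hE
  refine ⟨c, ⟨hc0, hc⟩, ?_, ?_, heq, ⟨⟨c, heq.symm⟩, ?_⟩⟩
  · rw [bernPsi_eq]; exact hΨ
  · intro c' hc' h'
    rw [bernPsi_eq] at h'
    exact Psi_zero_unique hα ⟨hc0, hc⟩ hc' hΨ h'
  · rintro _ ⟨c', rfl⟩
    exact bernG_le hα ⟨μ, hμ⟩ c'

end Pool.Agent.Helper45.Bern
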