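import Pool.Agent.Helper45.Bern.Expand
import Pool.Agent.Helper45.BernDefs
import Pool.Agent.Helper45.BernBessel
import Pool.Agent.Helper78.BernBridge
import Pool.Agent.Helper5.BernId

/-!
# The value of `I(α)` from the expansion
-/

set_option autoImplicit false

open MeasureTheory Set Filter Topology
open Pool.Agent.Helper5.Bern Pool.Agent.Helper78.Bern

namespace Pool.Agent.Helper45.Bern

theorem sonineId {c : ℝ} (hc : 0 < c) : SonineId c := by
  intro ν t ht _
  exact integral_besP_zero_cos c ν t ht (by positivity)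

/-- `c J₁(c√(1-ξ²))/√(1-ξ²)` -/
noncomputable def kap (c ξ : ℝ) : ℝ := c ^ 2 / 2 * besP 1 (c ^ 2 * (1 - ξ ^ 2) / 4)

theorem continuous_kap (c : ℝ) : Continuous (kap c) := by
  unfold kap
  exact ((continuous_besP 1).comp (by fun_prop)).const_mul _

theorem kap_cos (c ν : ℝ) : ∫ ξ in (0:ℝ)..1, kap c ξ * Real.cos (ν * ξ) =
    Real.cos ν - Real.cos √(ν ^ 2 + c ^ 2) := by
  have h := integral_besP_one_cos c ν 1 zero_le_one
  rw [one_mul, mul_one, mul_one] at h
  rw [← h]
  congr 1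
  funext s
  rw [kap, one_pow]

theorem bernG_eq (α c : ℝ) : bernG α c = ∫ ξ in (0:ℝ)..1, (1 - ξ) ^ α * kap c ξ := rfl

theorem bernPsi_eq (α c : ℝ) : bernPsi α c = Psi α c := by
  unfold bernPsi Psi
  congr 1
  funext s
  rw [besR_eq]
  rfl

theorem half_add (z : ℝ) : (Real.cos z : ℂ) =
    (Complex.exp (-(Complex.I * ((z : ℝ) : ℂ))) + Complex.exp (-(Complex.I * ((-z : ℝ) : ℂ)))) / 2 := by
  rw [Complex.ofReal_cos, Complex.cos]
  push_cast
  rw [show -(Complex.I * (z:ℂ)) = -(z:ℂ) * Complex.I by ring,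
    show -(Complex.I * -(z:ℂ)) = (z:ℂ) * Complex.I by ring]
  ring

/-- cosine transform of a representing pair -/
theorem cos_transform {α : ℝ} {m : Measure ℝ} {h : ℝ → ℂ} (hh : Integrable h m)
    (hrep : ∀ ξ : ℝ, |ξ| ≤ 1 →
      ∫ x, Complex.exp (-(Complex.I * ((x * ξ : ℝ) : ℂ))) * h x ∂m = (((1 - |ξ|) ^ α : ℝ) : ℂ))
    {ξ : ℝ} (hξ : ξ ∈ Icc (0:ℝ) 1) :
    ∫ x, (Real.cos (x * ξ) : ℂ) * h x ∂m = (((1 - ξ) ^ α : ℝ) : ℂ) := by
  have hb : ∀ ξ : ℝ, Integrable (fun x => Complex.exp (-(Complex.I * ((x * ξ : ℝ) : ℂ))) * h x) m := by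
    intro ξ
    refine hh.bdd_mul (c := 1) (by fun_prop : Continuous (fun x : ℝ =>
      Complex.exp (-(Complex.I * ((x * ξ : ℝ) : ℂ))))).aestronglyMeasurable
      (Eventually.of_forall fun x => ?_)
    rw [show -(Complex.I * ((x * ξ : ℝ) : ℂ)) = ((-(x * ξ) : ℝ) : ℂ) * Complex.I by push_cast; ring,
      Complex.norm_exp_ofReal_mul_I]
  have h1 := hrep ξ (by rw [abs_of_nonneg hξ.1]; exact hξ.2)
  have h2 := hrep (-ξ) (by rw [abs_neg, abs_of_nonneg hξ.1]; exact hξ.2)
  rw [abs_of_nonneg hξ.1] at h1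
  rw [abs_neg, abs_of_nonneg hξ.1] at h2
  have h3 : ∀ x : ℝ, (Real.cos (x * ξ) : ℂ) * h x =
      (1 / 2 : ℂ) * (Complex.exp (-(Complex.I * ((x * ξ : ℝ) : ℂ))) * h x +
        Complex.exp (-(Complex.I * ((x * -ξ : ℝ) : ℂ))) * h x) := by
    intro x
    rw [half_add, show -(x * ξ) = x * -ξ by ring]
    ring
  simp_rw [h3]
  rw [integral_const_mul, integral_add (hb ξ) (hb (-ξ)), h1, h2]
  ring

/-- **Lower bound.** -/
theorem pair_kap {α c : ℝ} (hα : 0 < α) {m : Measure ℝ} {h : ℝ → ℂ} [IsFiniteMeasure m]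
    (hh : Integrable h m)
    (hrep : ∀ ξ : ℝ, |ξ| ≤ 1 →
      ∫ x, Complex.exp (-(Complex.I * ((x * ξ : ℝ) : ℂ))) * h x ∂m = (((1 - |ξ|) ^ α : ℝ) : ℂ)) :
    ∫ x, ((-Real.cos √(x ^ 2 + c ^ 2) : ℝ) : ℂ) * h x ∂m = ((bernG α c : ℝ) : ℂ) := by
  obtain ⟨K, hK⟩ := isCompact_Icc.exists_bound_of_continuousOn (s := Icc (0:ℝ) 1)
    (continuous_kap c).continuousOn
  have hkc := continuous_kap c
  have hcos1 : Integrable (fun x => (Real.cos x : ℂ) * h x) m := by
    refine hh.bdd_mul (c := 1) (by fun_prop : Continuous (fun x : ℝ =>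
      (Real.cos x : ℂ))).aestronglyMeasurable (Eventually.of_forall fun x => ?_)
    rw [Complex.norm_real, Real.norm_eq_abs]
    exact Real.abs_cos_le_one _
  have hprod : Integrable (Function.uncurry fun (x ξ : ℝ) =>
      ((kap c ξ * Real.cos (x * ξ) : ℝ) : ℂ) * h x) (m.prod (volume.restrict (Ioc (0:ℝ) 1))) := by
    have h1 : Integrable (fun p : ℝ × ℝ => h p.1) (m.prod (volume.restrict (Ioc (0:ℝ) 1))) :=
      hh.comp_fst _
    refine h1.bdd_mul (c := K) (f := fun p : ℝ × ℝ => ((kap c p.2 * Real.cos (p.1 * p.2) : ℝ) : ℂ))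
      ?_ ?_
    · apply Continuous.aestronglyMeasurable
      apply Complex.continuous_ofReal.comp
      exact (hkc.comp continuous_snd).mul (by fun_prop)
    · have hmeas : MeasurableSet {p : ℝ × ℝ | ‖((kap c p.2 * Real.cos (p.1 * p.2) : ℝ) : ℂ)‖ ≤ K} := by
        apply measurableSet_le
        · apply Continuous.measurable
          apply Continuous.norm
          apply Complex.continuous_ofReal.comp
          exact (hkc.comp continuous_snd).mul (by fun_prop)
        · exact measurable_const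
      rw [Measure.ae_prod_iff_ae_ae hmeas]
      refine Eventually.of_forall fun x => ?_
      rw [ae_restrict_iff' measurableSet_Ioc]
      refine Eventually.of_forall fun ξ hξ => ?_
      simp only
      rw [Complex.norm_real, norm_mul, Real.norm_eq_abs (Real.cos _)]
      have h2 := hK ξ ⟨hξ.1.le, hξ.2⟩
      calc ‖kap c ξ‖ * |Real.cos (x * ξ)| ≤ ‖kap c ξ‖ * 1 :=
            mul_le_mul_of_nonneg_left (Real.abs_cos_le_one _) (norm_nonneg _)
        _ ≤ K := by rw [mul_one]; exact h2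
  have h1 : ∀ x : ℝ, ((-Real.cos √(x ^ 2 + c ^ 2) : ℝ) : ℂ) * h x =
      (∫ ξ in Ioc (0:ℝ) 1, ((kap c ξ * Real.cos (x * ξ) : ℝ) : ℂ) * h x) -
        (Real.cos x : ℂ) * h x := by
    intro x
    have h2 : ∫ ξ in Ioc (0:ℝ) 1, ((kap c ξ * Real.cos (x * ξ) : ℝ) : ℂ) * h x =
        ((∫ ξ in (0:ℝ)..1, kap c ξ * Real.cos (x * ξ) : ℝ) : ℂ) * h x := by
      rw [integral_mul_const, integral_complex_ofReal,
        intervalIntegral.integral_of_le zero_le_one]
    rw [h2, kap_cos]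
    push_cast
    ring
  simp_rw [h1]
  have hI : Integrable (fun x => ∫ ξ in Ioc (0:ℝ) 1,
      ((kap c ξ * Real.cos (x * ξ) : ℝ) : ℂ) * h x) m := hprod.integral_prod_left
  rw [integral_sub hI hcos1, integral_integral_swap hprod]
  have h3 : ∫ x, (Real.cos x : ℂ) * h x ∂m = 0 := by
    have := cos_transform hh hrep (ξ := 1) (by simp)
    simp only [mul_one, sub_self, Real.zero_rpow hα.ne'] at this
    rw [this]
    simp
  rw [h3, sub_zero, bernG_eq, intervalIntegral.integral_of_le zero_le_one,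
    ← integral_complex_ofReal]
  apply setIntegral_congr_fun measurableSet_Ioc
  intro ξ hξ
  simp only
  have h4 : ∀ x : ℝ, ((kap c ξ * Real.cos (x * ξ) : ℝ) : ℂ) * h x =
      (kap c ξ : ℂ) * ((Real.cos (x * ξ) : ℂ) * h x) := by
    intro x; push_cast; ring
  simp_rw [h4]
  rw [integral_const_mul, cos_transform hh hrep ⟨hξ.1.le, hξ.2⟩]
  push_cast
  ring

/-- **Lower bound.** -/
theorem bernG_le {α : ℝ} (hα : 0 < α) (hne : ∃ μ, Admissible α μ) (c : ℝ) :
    bernG α c ≤ bernsteinNorm α := by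
  apply le_bernsteinNorm_of_test hne (f := fun x => ((-Real.cos √(x ^ 2 + c ^ 2) : ℝ) : ℂ))
  · intro x
    rw [Complex.norm_real, norm_neg, Real.norm_eq_abs]
    exact Real.abs_cos_le_one _
  · intro m h hm hh hrep
    rw [pair_kap hα hh hrep, Complex.norm_real]
    exact le_abs_self _

section upper

variable {α c : ℝ} (hα : 0 < α) (hc0 : 0 < c) (hc : c < Real.pi)
  (hΨ : Psi α c = 0) (hE : ∀ k : ℕ, 1 ≤ k → 0 ≤ Ef α c k)

include hα hc0 hc hΨ hE

theorem hasSum_abs_ak : HasSum (fun k : ℕ => |ak α c k|) (bernG α c) := by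
  have hS := sonineId hc0
  have hsa := summable_ak hα hS hc0 hc hΨ hE
  obtain ⟨K, hK⟩ := isCompact_Icc.exists_bound_of_continuousOn (s := Icc (0:ℝ) 1)
    (continuous_kap c).continuousOn
  have hK0 : 0 ≤ K := (norm_nonneg _).trans (hK 0 (by simp))
  have h1 : HasSum (fun k : ℕ => ∫ ξ in (0:ℝ)..1, kap c ξ * (ak α c k * Real.cos (xk c k * ξ)))
      (∫ ξ in (0:ℝ)..1, kap c ξ * (1 - ξ) ^ α) := by
    apply hasSum_integral_const (b := fun k => K * |ak α c k|)
    · intro k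
      exact (continuous_kap c).mul (by fun_prop)
    · exact hsa.mul_left K
    · intro k s hs
      rw [uIcc_of_le zero_le_one] at hs
      rw [abs_mul, abs_mul]
      exact mul_le_mul (hK s hs) (mul_le_of_le_one_right (abs_nonneg _) (Real.abs_cos_le_one _))
        (by positivity) hK0
    · intro s hs
      rw [uIcc_of_le zero_le_one] at hs
      exact (expansion hα hS hc0 hc hΨ hE s hs).mul_left _
  have h2 := expansion hα hS hc0 hc hΨ hE 1 (by simp)
  rw [sub_self, Real.zero_rpow hα.ne'] at h2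
  have h3 := h1.sub h2
  rw [sub_zero] at h3
  have h4 : bernG α c = ∫ ξ in (0:ℝ)..1, kap c ξ * (1 - ξ) ^ α := by
    rw [bernG_eq]
    congr 1
    funext ξ; ring
  rw [h4]
  refine hasSum_of_eq h3 (fun k => ?_)
  rcases Nat.eq_zero_or_pos k with hk | hk
  · subst hk; simp [ak_zero]
  · rw [abs_ak hα hS hc0 hc hΨ hE k]
    have h5 : ∫ ξ in (0:ℝ)..1, kap c ξ * (ak α c k * Real.cos (xk c k * ξ)) =
        ak α c k * ∫ ξ in (0:ℝ)..1, kap c ξ * Real.cos (xk c k * ξ) := by
      rw [← intervalIntegral.integral_const_mul]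
      congr 1
      funext s; ring
    rw [h5, kap_cos, sqrt_xk hc0 hc hk, cos_pik, mul_one, pow_succ]
    ring

theorem exists_admissible_le : ∃ μ, Admissible α μ ∧ totalVar μ ≤ bernG α c := by
  have hS := sonineId hc0
  have hsa := summable_ak hα hS hc0 hc hΨ hE
  set e : ℤ → ℝ := fun n => if 0 ≤ n then xk c n.natAbs else - xk c n.natAbs with he
  set b : ℤ → ℂ := fun n => ((ak α c n.natAbs / 2 : ℝ) : ℂ) with hb
  have hnorm : ∀ n, ‖b n‖ = |ak α c n.natAbs| / 2 := by
    intro n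
    rw [hb]
    simp only
    rw [Complex.norm_real, Real.norm_eq_abs, abs_div, abs_two]
  have hA := hasSum_abs_ak hα hc0 hc hΨ hE
  have hsumb : HasSum (fun n => ‖b n‖) (bernG α c) := by
    have h1 : HasSum (fun n : ℕ => ‖b n‖) (bernG α c / 2) := by
      simp_rw [hnorm]
      exact hA.div_const 2
    have h2 : HasSum (fun n : ℕ => ‖b (-(n + 1 : ℤ))‖) (bernG α c / 2) := by
      have h3 := (hasSum_nat_add_iff' 1).2 (hA.div_const 2)
      simp only [Finset.range_one, Finset.sum_singleton, ak_zero, abs_zero, zero_div, sub_zero] at h3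
      refine hasSum_of_eq h3 (fun n => ?_)
      have hn2 : (-(n + 1 : ℤ)).natAbs = n + 1 := by omega
      rw [hnorm, hn2]
    have h4 := HasSum.of_nat_of_neg_add_one (f := fun n : ℤ => ‖b n‖) h1 h2
    rw [add_halves] at h4
    exact h4
  obtain ⟨μ, hμ, hμ2⟩ := exists_admissible_of_series (α := α) (b := b) (e := e) hsumb.summable (by
    intro ξ hξ
    have hexp := expansion hα hS hc0 hc hΨ hE |ξ| ⟨abs_nonneg _, hξ⟩
    have hexp' : HasSum (fun k : ℕ => ak α c k * Real.cos (xk c k * ξ)) ((1 - |ξ|) ^ α) := by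
      refine hasSum_of_eq hexp (fun k => ?_)
      congr 1
      rw [← Real.cos_abs (xk c k * ξ), ← Real.cos_abs (xk c k * |ξ|), abs_mul, abs_mul, abs_abs]
    have hs1 : Summable (fun k : ℕ => Complex.exp (-(Complex.I * ((xk c k * ξ : ℝ) : ℂ))) *
        ((ak α c k / 2 : ℝ) : ℂ)) := by
      apply Summable.of_norm
      refine (hsa.div_const 2).congr fun k => ?_
      rw [norm_mul, show -(Complex.I * ((xk c k * ξ : ℝ) : ℂ)) = ((-(xk c k * ξ) : ℝ) : ℂ) * Complex.I by
        push_cast; ring, Complex.norm_exp_ofReal_mul_I, one_mul, Complex.norm_real,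
        Real.norm_eq_abs, abs_div, abs_two]
    have hs2 : Summable (fun k : ℕ => Complex.exp (-(Complex.I * ((-xk c k * ξ : ℝ) : ℂ))) *
        ((ak α c k / 2 : ℝ) : ℂ)) := by
      apply Summable.of_norm
      refine (hsa.div_const 2).congr fun k => ?_
      rw [norm_mul, show -(Complex.I * ((-xk c k * ξ : ℝ) : ℂ)) = (((xk c k * ξ) : ℝ) : ℂ) * Complex.I by
        push_cast; ring, Complex.norm_exp_ofReal_mul_I, one_mul, Complex.norm_real,
        Real.norm_eq_abs, abs_div, abs_two]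
    obtain ⟨T1, h1⟩ := hs1
    obtain ⟨T2, h2⟩ := hs2
    have h2' := (hasSum_nat_add_iff' 1).2 h2
    simp only [Finset.range_one, Finset.sum_singleton, ak_zero, zero_div, Complex.ofReal_zero,
      mul_zero, sub_zero] at h2'
    have h3 : HasSum (fun n : ℕ => Complex.exp (-(Complex.I * ((e n * ξ : ℝ) : ℂ))) * b n) T1 := by
      have : (fun n : ℕ => Complex.exp (-(Complex.I * ((e n * ξ : ℝ) : ℂ))) * b n) =
          (fun k : ℕ => Complex.exp (-(Complex.I * ((xk c k * ξ : ℝ) : ℂ))) *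
            ((ak α c k / 2 : ℝ) : ℂ)) := by
        funext n
        simp only [he, hb, Nat.cast_nonneg, if_true, Int.natAbs_natCast]
      rw [this]
      exact h1
    have h4 : HasSum (fun n : ℕ => Complex.exp (-(Complex.I * ((e (-(n + 1 : ℤ)) * ξ : ℝ) : ℂ))) *
        b (-(n + 1 : ℤ))) T2 := by
      have : (fun n : ℕ => Complex.exp (-(Complex.I * ((e (-(n + 1 : ℤ)) * ξ : ℝ) : ℂ))) *
          b (-(n + 1 : ℤ))) = (fun k : ℕ =>
          Complex.exp (-(Complex.I * ((-xk c (k + 1) * ξ : ℝ) : ℂ))) *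
            ((ak α c (k + 1) / 2 : ℝ) : ℂ)) := by
        funext n
        have hn : ¬ (0 : ℤ) ≤ -(n + 1 : ℤ) := by omega
        have hn2 : (-(n + 1 : ℤ)).natAbs = n + 1 := by omega
        simp only [he, hb, hn, if_false, hn2]
      rw [this]
      exact h2'
    have h5 := HasSum.of_nat_of_neg_add_one
      (f := fun n : ℤ => Complex.exp (-(Complex.I * ((e n * ξ : ℝ) : ℂ))) * b n) h3 h4
    have h6 := h1.add h2
    have h7 : HasSum (fun k : ℕ => Complex.exp (-(Complex.I * ((xk c k * ξ : ℝ) : ℂ))) *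
        ((ak α c k / 2 : ℝ) : ℂ) + Complex.exp (-(Complex.I * ((-xk c k * ξ : ℝ) : ℂ))) *
        ((ak α c k / 2 : ℝ) : ℂ)) (((1 - |ξ|) ^ α : ℝ) : ℂ) := by
      have h8 := (Complex.hasSum_ofReal).2 hexp'
      have h9 : ∀ k : ℕ, Complex.exp (-(Complex.I * ((xk c k * ξ : ℝ) : ℂ))) *
        ((ak α c k / 2 : ℝ) : ℂ) + Complex.exp (-(Complex.I * ((-xk c k * ξ : ℝ) : ℂ))) *
        ((ak α c k / 2 : ℝ) : ℂ) = ((ak α c k * Real.cos (xk c k * ξ) : ℝ) : ℂ) := by
        intro k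
        rw [Complex.ofReal_mul (ak α c k), half_add, show -(xk c k * ξ) = -xk c k * ξ by ring]
        push_cast
        ring
      simp_rw [h9]
      exact h8
    rw [h6.unique h7] at h5
    exact h5)
  refine ⟨μ, hμ, ?_⟩
  rw [hsumb.tsum_eq] at hμ2
  exact hμ2

/-- **The value.** -/
theorem bernsteinNorm_eq : bernsteinNorm α = bernG α c := by
  obtain ⟨μ, hμ, hμ2⟩ := exists_admissible_le hα hc0 hc hΨ hE
  exact le_antisymm ((Pool.Agent.Helper78.Bern.bernsteinNorm_le hμ).trans hμ2)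
    (bernG_le hα ⟨μ, hμ⟩ c)

end upper

end Pool.Agent.Helper45.Bern
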